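import Pool.Agent.Lib.MP_640417_ag.Lef.Defs

/-!
# MP_640417_ag, Lef, module Ext (150 lines): the extension of skew endomorphisms
-/

set_option autoImplicit false

namespace Pool.Agent.Lib.MP_640417_ag.Lef

open Module Pool.Agent.Lib.MP_640417_ag.Four

variable {K V : Type} [Field K] [AddCommGroup V] [Module K V] {form : LinearMap.BilinForm K V}
  {C : Subalgebra K (Module.End K V)} {N : ℕ} {st : Fin N → Fin N} {ε : Fin N → Module.End K V}
  {r : Fin N → Fin N} {u v : Fin N → Module.End K V}

theorem v_u (hS : Sys form C N st ε) (h : UV form C N st ε r u v) {j k : Fin N} (hjk : j ≠ k) :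
    v j * u k = 0 := by
  rw [← h.ve j, ← h.eu k, mul_assoc, ← mul_assoc (ε j) (ε k) (u k), hS.orth j k hjk, zero_mul,
    mul_zero]

theorem v_ext (hS : Sys form C N st ε) (h : UV form C N st ε r u v) {Y : Module.End K V}
    (hY : ∀ j, Y * ε (r j) = ε (r j) * Y) (j : Fin N) : v j * ext u v Y = Y * v j := by
  unfold ext
  rw [Finset.mul_sum, Finset.sum_eq_single j]
  · rw [← mul_assoc, ← mul_assoc, h.vu, ← hY, mul_assoc, h.ev]
  · intro k _ hk
    rw [← mul_assoc, ← mul_assoc, v_u hS h (Ne.symm hk), zero_mul, zero_mul]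
  · intro hj
    exact absurd (Finset.mem_univ _) hj

theorem ext_u (hS : Sys form C N st ε) (h : UV form C N st ε r u v) {Y : Module.End K V}
    (hY : ∀ j, Y * ε (r j) = ε (r j) * Y) (j : Fin N) : ext u v Y * u j = u j * Y := by
  unfold ext
  rw [Finset.sum_mul, Finset.sum_eq_single j]
  · rw [mul_assoc, h.vu, mul_assoc, hY, ← mul_assoc, h.ue]
  · intro k _ hk
    rw [mul_assoc, v_u hS h hk, mul_zero]
  · intro hj
    exact absurd (Finset.mem_univ _) hj

theorem ext_skew (hS : Sys form C N st ε) (h : UV form C N st ε r u v) {Y : Module.End K V}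
    (hY : Skew form Y) : Skew form (ext u v Y) := by
  intro x y
  have hterm : ∀ j, form ((u j * Y * v j) x) y +
      form x ((u (st j) * Y * v (st j)) y) = 0 := by
    intro j
    obtain ⟨a, b, hab, h1, h2⟩ := h.adj j
    have e1 := h1 (Y (v j x)) y
    have e2 := h2 x (Y (v (st j) y))
    have e3 := hY (v j x) (v (st j) y)
    change form (u j (Y (v j x))) y + form x (u (st j) (Y (v (st j) y))) = 0
    have e4 : form x (u (st j) (Y (v (st j) y))) = a * form (v j x) (Y (v (st j) y)) := by
      rw [e2, ← mul_assoc, hab, one_mul]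
    rw [e1, e4, ← mul_add, e3, mul_zero]
  have hσ : ∑ j, form x ((u j * Y * v j) y) = ∑ j, form x ((u (st j) * Y * v (st j)) y) :=
    (Equiv.sum_comp (Function.Involutive.toPerm st hS.inv)
      (fun j => form x ((u j * Y * v j) y))).symm
  have h3 : form (ext u v Y x) y = ∑ j, form ((u j * Y * v j) x) y := by
    unfold ext
    rw [LinearMap.sum_apply, map_sum, LinearMap.sum_apply]
  have h4 : form x (ext u v Y y) = ∑ j, form x ((u j * Y * v j) y) := by
    unfold ext
    rw [LinearMap.sum_apply, map_sum]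
  rw [h3, h4, hσ, ← Finset.sum_add_distrib]
  exact Finset.sum_eq_zero fun j _ => hterm j

theorem ext_comm (hS : Sys form C N st ε) (h : UV form C N st ε r u v) {Y : Module.End K V}
    (hY : ∀ j, Y * ε (r j) = ε (r j) * Y) {c : Module.End K V} (hc : c ∈ C) :
    ext u v Y * c = c * ext u v Y := by
  have h1 : ∀ j k, ext u v Y * (u j * v k) = (u j * v k) * ext u v Y := by
    intro j k
    rw [← mul_assoc, ext_u hS h hY, mul_assoc, mul_assoc, v_ext hS h hY]
  have h2 : c = ∑ j, ∑ k, ε j * c * ε k := by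
    calc c = (∑ j, ε j) * c * (∑ k, ε k) := by rw [hS.sum, one_mul, mul_one]
      _ = ∑ j, ∑ k, ε j * c * ε k := by
        rw [Finset.sum_mul, Finset.sum_mul]
        exact Finset.sum_congr rfl fun j _ => Finset.mul_sum _ _ _
  have h3 : ∀ j k, ext u v Y * (ε j * c * ε k) = (ε j * c * ε k) * ext u v Y := by
    intro j k
    obtain ⟨t, ht⟩ := h.one j k c hc
    rw [ht, mul_smul_comm, smul_mul_assoc, h1]
  rw [h2, Finset.mul_sum, Finset.sum_mul]
  refine Finset.sum_congr rfl fun j _ => ?_
  rw [Finset.mul_sum, Finset.sum_mul]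
  exact Finset.sum_congr rfl fun k _ => h3 j k

theorem ext_sum (hS : Sys form C N st ε) (h : UV form C N st ε r u v) {X : Module.End K V}
    (hX : ∀ c ∈ C, X * c = c * X) : ext u v X = X := by
  unfold ext
  calc ∑ j, u j * X * v j = ∑ j, X * ε j := by
        refine Finset.sum_congr rfl fun j _ => ?_
        rw [← hX (u j) (h.uC j), mul_assoc, h.uv]
    _ = X := by rw [← Finset.mul_sum, hS.sum, mul_one]

end Pool.Agent.Lib.MP_640417_ag.Lef
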