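import Pool.Agent.Lib.MP_640417_ag.Lef.Defs
import Pool.Agent.Lib.MP_640417_ag.Four.Der
import Pool.Agent.Lib.MP_640417_ag.Four.Span
import Pool.Agent.Lib.MP_640417_ag.Four.Descent
import Pool.Agent.Lib.MP_640417_ag.Frob.BaseRep

/-!
# MP_640417_ag, Lef, module SkewL (120 lines): extension of scalars for the Lie algebra of the centralizer of the commutant

* `Dv_be`: induction on `x` (`CliffordAlgebra.left_induction`, see `IsDer.map` in `Four/Der.lean`), with `be_ι` (`Four/Descent.lean`; `be` is
  an algebra homomorphism, see its definition) and `isDer_Dv`.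
* `skew_K`: by `sum_cp` (`Four/Span.lean`, `b` a basis of `K` over `F`) `X = ∑ t, b t • (cp (b.coord t) X).baseChange K`. `cp (b.coord t) X` commutes
  with every `c` which commutes with all `T γ` (`c.baseChange K ∈ cenK K T`; `cp_mul_baseChange`, `cp_baseChange_mul`), and it is skew
  (`form_cp` and antisymmetry, see `skew_kills` in `Four/General.lean`). So `Dv n (cp ..) x = 0`, then `Dv_be`, `Dv_sum`, `Dv_smul`.
-/

set_option autoImplicit false

namespace Pool.Agent.Lib.MP_640417_ag.Lef

open Module TensorProduct Pool.Agent.Lib.MP_640417_ag Pool.Agent.Lib.MP_640417_ag.Frob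
  Pool.Agent.Lib.MP_640417_ag.Four

variable {F : Type} [Field F] [CharZero F] {V : Type}
  [AddCommGroup V] [Module F V] [FiniteDimensional F V] (K : Type) [Field K] [Algebra F K]

theorem Dv_be (n : ℕ) (X : Module.End F V) (x : ExteriorAlgebra F (Fin n → V)) :
    Dv n (X.baseChange K) (be K n x) = be K n (Dv n X x) := by
  have hF := isDer_Dv n X
  have hK := isDer_Dv n (X.baseChange K : Module.End K (K ⊗[F] V))
  induction x using CliffordAlgebra.left_induction with
  | algebraMap r =>
    change Dv n (X.baseChange K) (be K n (algebraMap F (ExteriorAlgebra F (Fin n → V)) r)) =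
      be K n (Dv n X (algebraMap F (ExteriorAlgebra F (Fin n → V)) r))
    rw [hF.1 r, map_zero, AlgHom.commutes,
      IsScalarTower.algebraMap_apply F K (ExteriorAlgebra K (Fin n → K ⊗[F] V)) r]
    exact hK.1 _
  | add x y hx hy => rw [map_add, map_add, hx, hy, map_add, map_add]
  | ι_mul x m hx =>
    change Dv n (X.baseChange K) (be K n (ExteriorAlgebra.ι F m * x)) =
      be K n (Dv n X (ExteriorAlgebra.ι F m * x))
    rw [hF.2 m x, map_mul, be_ι, hK.2, hx, map_add, map_mul, map_mul, be_ι, be_ι]
    rfl

theorem skew_K {Γ : Type} [Group Γ] (T : Γ →* Module.End F V) (form : LinearMap.BilinForm F V)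
    (halt : ∀ x, form x x = 0) (n : ℕ) (x : ExteriorAlgebra F (Fin n → V))
    (hx : ∀ X : Module.End F V, (∀ x y, form (X x) y + form x (X y) = 0) →
      (∀ c : Module.End F V, (∀ γ, c * T γ = T γ * c) → X * c = c * X) → Dv n X x = 0)
    (X : Module.End K (K ⊗[F] V)) (hX : Skew (form.baseChange K) X)
    (hXc : ∀ c ∈ cenK K T, X * c = c * X) : Dv n X (be K n x) = 0 := by
  classical
  have hanti : ∀ u v, form u v = - form v u := anti halt
  have hanti' : ∀ u v, form.baseChange K u v = - form.baseChange K v u :=
    anti (alt_baseChange K form halt)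
  let b := Module.Free.chooseBasis F K
  obtain ⟨τ, hτ⟩ := sum_cp b X
  rw [hτ, Dv_sum, LinearMap.sum_apply]
  refine Finset.sum_eq_zero fun t _ => ?_
  rw [Dv_smul, LinearMap.smul_apply, Dv_be, hx, map_zero, smul_zero]
  · intro u v
    rw [hanti u, form_cp, form_cp, ← map_neg, ← hanti', ← map_add, hX, map_zero]
  · intro c hc
    rw [← cp_mul_baseChange, ← cp_baseChange_mul, hXc]
    rw [cenK, Subalgebra.mem_centralizer_iff]
    rintro _ ⟨γ, rfl⟩
    have h1 := congrArg (fun g : Module.End F V => g.baseChange K) (hc γ)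
    have h2 : ∀ g g' : Module.End F V, (g * g').baseChange K = g.baseChange K * g'.baseChange K :=
      fun g g' => LinearMap.baseChange_comp g' g
    simp only [h2] at h1
    exact h1.symm

end Pool.Agent.Lib.MP_640417_ag.Lef
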