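import Pool.Agent.Lib.MP_640417_ag.Lef.Defs
import Pool.Agent.Lib.MP_640417_ag.Four.Span
import Pool.Agent.Lib.MP_640417_ag.Frob.BaseRep

/-!
# MP_640417_ag, Lef, module Eps (300 lines): the eigenprojections of `s`

`V' = K ⊗ V`, `sK = s.baseChange K`, `C = cenK K T`. As in `Ty/EigK.lean` (same proof for matrices and `s' = s`; private lemmas can be
copied):
1. `P = (minpoly F s).map (algebraMap F K)` is monic, separable (`PerfectField.separable_iff_squarefree`), kills `sK`
   (`LinearMap.baseChange` is an algebra homomorphism `Module.End.baseChangeHom`), so `P = ∏ a ∈ R, (X - C a)`, `R = P.roots.toFinset`.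
   `ep a = aeval sK (Lagrange.basis R id a)`, `sK * ep a = a • ep a`, `∑ a ∈ R, ep a = 1`, idempotent, orthogonal. The `a` with
   `ep a = 0` are discarded. They are in `C`, polynomials in `sK`.
2. Descent: if `c' ∈ C` satisfies `c' * sK = sK * c'`, then `c'` is in `Algebra.adjoin K {sK}`: by `sum_cp` (`Four/Span.lean`, `b` a basis of
   `K` over `F`) `c' = ∑ t, b t • (cp (b.coord t) c').baseChange K`, and `cp ..` commutes with the `T γ` and with `s` (`cp_mul_baseChange`,
   `cp_baseChange_mul`), so it is a polynomial in `s` (`hs2`). Polynomials `q(sK)` satisfy `q(sK) * ep a = q(a) • ep a`. So for `c ∈ C`: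
   `ep a * c * ep a` commutes with `sK` (`sK ep a = a ep a = ep a sK`), so it is `q(sK)`, `ep a c ep a = ep a c ep a * ep a = q(a) • ep a`.
3. `s' = q(s)` with a polynomial `q` over `F` (`hs'`; `Algebra.adjoin_singleton_eq_range_aeval`). `s'` is the adjoint of `s`; `s` is the
   adjoint of `s'` (`form` is alternating). `Q(s)` and `Q(s')` are adjoint for all polynomials `Q` over `K` (induction), for the form
   `form.baseChange K` and `sK`, `s'K` (check on pure tensors). So `s = q(s')` (the adjoint of `s' = q(s)` is `q(s')`, and it is `s`;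
   uniqueness of adjoints by nondegeneracy), so `aeval sK (q.comp q) = sK`. For `a ∈ R`: `s'K * ep a = q(a) • ep a`;
   `P(s'K) = 0` (it is the adjoint of `P(sK) = 0`), so `P(q(a)) • ep a = 0`, `q(a) ∈ R`; `q(q(a)) = a`. Enumerate `R` by `Fin N`
   (`R.equivFin` or `Finset.equivFin`), `a : Fin N → K` injective, `st` with `a (st j) = q(a j)`; `st (st j) = j`.
4. `adj`: the adjoint of `ep (a j) = L_j(sK)` (`L_j` the Lagrange polynomial) is `L_j(s'K) = ∑ k, L_j(s'K) ep (a k) =
   ∑ k, L_j(q(a k)) ep (a k) = ∑ k, L_j(a (st k)) ep (a k) = ep (a (st j))`.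
5. `far`: let `st j ≠ j`, `c ∈ C`, `c' = ε (st j) * c * ε j`. `c' * sK = a j • c'`; `s'K * ε (st j) = q(a (st j)) • ε (st j) = a j • ε (st j)`, so
   `s'K * c' = a j • c' = c' * sK`. As in 2., `c' = ∑ t, b t • (c_t).baseChange K`, `c_t = cp (b.coord t) c'` commutes with the `T γ` and
   satisfies `c_t * s = s' * c_t`, so by `hs3` `c_t * s = s * c_t`. So `c' * sK = sK * c' = a (st j) • c'`, so
   `(a j - a (st j)) • c' = 0`, `c' = 0`.
-/

set_option autoImplicit false

namespace Pool.Agent.Lib.MP_640417_ag.Lef

open Module TensorProduct Pool.Agent.Lib.MP_640417_ag.Four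

section aux

open Polynomial

private theorem evalE {K A : Type} [Field K] [Ring A] [Algebra K A] (x e : A) (a : K)
    (h : x * e = a • e) (q : Polynomial K) : aeval x q * e = q.eval a • e := by
  obtain ⟨r, hr⟩ := Polynomial.X_sub_C_dvd_sub_C_eval (a := a) (p := q)
  have h1 : q = r * (X - C a) + C (q.eval a) := by
    rw [mul_comm, ← hr]
    ring
  have h2 : aeval x q = aeval x r * (x - algebraMap K A a) + algebraMap K A (q.eval a) := by
    conv_lhs => rw [h1]
    simp
  rw [h2, add_mul, mul_assoc, sub_mul, h, Algebra.smul_def, sub_self, mul_zero, zero_add,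
    Algebra.smul_def]

private theorem basis_mul {K : Type} [Field K] [DecidableEq K] (R : Finset K) (a : K)
    (ha : a ∈ R) : (X - C a) * Lagrange.basis R id a =
      C (∏ b ∈ R.erase a, (a - b)⁻¹) * ∏ b ∈ R, (X - C b) := by
  rw [← Finset.mul_prod_erase R (fun b => X - C b) ha, Lagrange.basis]
  simp only [Lagrange.basisDivisor, id, Finset.prod_mul_distrib, map_prod]
  ring

private theorem eigE {K A : Type} [Field K] [Ring A] [Algebra K A] (x e : A) (a : K)
    (h : (x - algebraMap K A a) * e = 0) : x * e = a • e := by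
  rw [sub_mul, sub_eq_zero] at h
  rw [h, Algebra.smul_def]

private theorem smulE {K A : Type} [Field K] [AddCommGroup A] [Module K A] {a b : K} {x : A}
    (h : a • x = b • x) : a = b ∨ x = 0 := by
  rw [← sub_eq_zero, ← sub_smul] at h
  rcases smul_eq_zero.1 h with h | h
  · exact Or.inl (sub_eq_zero.1 h)
  · exact Or.inr h

/-- polynomials in adjoint operators are adjoint -/
private theorem adj_aeval {K V : Type} [Field K] [AddCommGroup V] [Module K V]
    (B : LinearMap.BilinForm K V) (s s' : Module.End K V)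
    (h : ∀ x y, B (s x) y = B x (s' y)) (Q : Polynomial K) :
    ∀ x y, B (aeval s Q x) y = B x (aeval s' Q y) := by
  have hpow : ∀ (n : ℕ) x y, B ((s ^ n) x) y = B x ((s' ^ n) y) := by
    intro n
    induction n with
    | zero => intro x y; simp
    | succ n ih =>
      intro x y
      rw [pow_succ, pow_succ', Module.End.mul_apply, Module.End.mul_apply, ih, h]
  intro x y
  rw [aeval_eq_sum_range, aeval_eq_sum_range, LinearMap.sum_apply, LinearMap.sum_apply, map_sum,
    map_sum, LinearMap.sum_apply]
  refine Finset.sum_congr rfl fun n _ => ?_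
  rw [LinearMap.smul_apply, LinearMap.smul_apply, map_smul, map_smul, LinearMap.smul_apply, hpow]

/-- adjoint operators stay adjoint after an extension of scalars -/
private theorem adj_baseChange {F K V : Type} [Field F] [Field K] [Algebra F K] [AddCommGroup V]
    [Module F V] (B : LinearMap.BilinForm F V) (s s' : Module.End F V)
    (h : ∀ x y, B (s x) y = B x (s' y)) (x y : K ⊗[F] V) :
    B.baseChange K (s.baseChange K x) y = B.baseChange K x (s'.baseChange K y) := by
  induction x using TensorProduct.induction_on with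
  | zero => simp
  | add x₁ x₂ h₁ h₂ => simp only [map_add, LinearMap.add_apply, h₁, h₂]
  | tmul a v =>
    induction y using TensorProduct.induction_on with
    | zero => simp
    | add y₁ y₂ h₁ h₂ => simp only [map_add, h₁, h₂]
    | tmul b w =>
      rw [LinearMap.baseChange_tmul, LinearMap.baseChange_tmul,
        LinearMap.BilinForm.baseChange_tmul, LinearMap.BilinForm.baseChange_tmul, h]

end aux

theorem exists_sys {Γ : Type} [Group Γ] {F : Type} [Field F] [CharZero F] {V : Type}
    [AddCommGroup V] [Module F V] [FiniteDimensional F V] (K : Type) [Field K] [Algebra F K]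
    [IsAlgClosed K] (T : Γ →* Module.End F V) (form : LinearMap.BilinForm F V)
    (halt : ∀ x, form x x = 0) (hnd : ∀ x, (∀ y, form x y = 0) → x = 0)
    (s s' : Module.End F V) (hs : ∀ γ, s * T γ = T γ * s)
    (hadj : ∀ x y, form (s x) y = form x (s' y)) (hs' : s' ∈ Algebra.adjoin F {s})
    (hsq : Squarefree (minpoly F s))
    (hs2 : ∀ c : Module.End F V, (∀ γ, c * T γ = T γ * c) → c * s = s * c →
      c ∈ Algebra.adjoin F {s})
    (hs3 : ∀ c : Module.End F V, (∀ γ, c * T γ = T γ * c) → c * s = s' * c → c * s = s * c) :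
    ∃ (N : ℕ) (st : Fin N → Fin N) (ε : Fin N → Module.End K (K ⊗[F] V)),
      Sys (form.baseChange K) (cenK K T) N st ε := by
  classical
  set sK : Module.End K (K ⊗[F] V) := s.baseChange K with hsK
  set s'K : Module.End K (K ⊗[F] V) := s'.baseChange K with hs'K
  set B := form.baseChange K with hB
  set P := (minpoly F s).map (algebraMap F K) with hP
  have hndK : ∀ x, (∀ y, B x y = 0) → x = 0 := fun x hx =>
    Pool.Agent.Lib.MP_640417_ag.Frob.nondeg_baseChange K form halt hnd x hx
  have hsep : P.Separable := (PerfectField.separable_iff_squarefree.2 hsq).map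
  have hmon : P.Monic := (minpoly.monic (Algebra.IsIntegral.isIntegral s)).map _
  -- polynomials over `F`
  have hF : ∀ q : Polynomial F, Polynomial.aeval sK (q.map (algebraMap F K)) =
      (Polynomial.aeval s q).baseChange K := by
    intro q
    rw [Polynomial.aeval_map_algebraMap]
    exact Polynomial.aeval_algHom_apply (Module.End.baseChangeHom F K V) s q
  have hP0 : Polynomial.aeval sK P = 0 := by
    rw [hP, hF, minpoly.aeval, LinearMap.baseChange_zero]
  set R := P.roots.toFinset with hR
  have hprod : P = ∏ b ∈ R, (Polynomial.X - Polynomial.C b) := by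
    have h1 := (IsAlgClosed.splits P).eq_prod_roots_of_monic hmon
    have h2 : P.roots.toFinset.val = P.roots := by
      rw [Multiset.toFinset_val, Multiset.dedup_eq_self]
      exact Polynomial.nodup_roots hsep
    rw [Finset.prod_eq_multiset_prod, hR, h2]
    exact h1
  let ep : K → Module.End K (K ⊗[F] V) := fun a => Polynomial.aeval sK (Lagrange.basis R id a)
  have hsep1 : ∀ a ∈ R, sK * ep a = a • ep a := by
    intro a ha
    have h1 := congrArg (Polynomial.aeval sK) (basis_mul R a ha)
    rw [← hprod, map_mul, map_mul, hP0, mul_zero, map_sub, Polynomial.aeval_X,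
      Polynomial.aeval_C] at h1
    exact eigE sK (ep a) a h1
  have hev : ∀ a ∈ R, ∀ q : Polynomial K, Polynomial.aeval sK q * ep a = q.eval a • ep a :=
    fun a ha q => evalE sK (ep a) a (hsep1 a ha) q
  have hsum : ∑ a ∈ R, ep a = 1 := by
    rcases R.eq_empty_or_nonempty with h0 | h0
    · rw [h0, Finset.prod_empty] at hprod
      rw [hprod, map_one] at hP0
      rw [h0, Finset.sum_empty, hP0]
    · show ∑ a ∈ R, Polynomial.aeval sK (Lagrange.basis R id a) = 1
      rw [← map_sum, Lagrange.sum_basis (Set.injOn_id _) h0, map_one]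
  have hbs : ∀ a ∈ R, (Lagrange.basis R id a).eval a = 1 := fun a ha =>
    Lagrange.eval_basis_self (v := (id : K → K)) (Set.injOn_id _) ha
  have hbn : ∀ a, ∀ b ∈ R, a ≠ b → (Lagrange.basis R id a).eval b = 0 := fun a b hb hab =>
    Lagrange.eval_basis_of_ne (v := (id : K → K)) hab hb
  have hidem : ∀ a ∈ R, ep a * ep a = ep a := by
    intro a ha
    have h1 := hev a ha (Lagrange.basis R id a)
    rw [hbs a ha, one_smul] at h1
    exact h1
  have horth : ∀ a ∈ R, ∀ b ∈ R, a ≠ b → ep a * ep b = 0 := by
    intro a ha b hb hab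
    have h1 := hev b hb (Lagrange.basis R id a)
    rw [hbn a b hb hab, zero_smul] at h1
    exact h1
  have hcm : ∀ a ∈ R, ep a * sK = a • ep a := by
    intro a ha
    have h2 : ep a * sK = sK * ep a := by
      have h3 : (Lagrange.basis R id a) * Polynomial.X = Polynomial.X * Lagrange.basis R id a :=
        mul_comm _ _
      have h4 := congrArg (Polynomial.aeval sK) h3
      rw [map_mul, map_mul, Polynomial.aeval_X] at h4
      exact h4
    rw [h2, hsep1 a ha]
  -- in the commutant
  have hmemC : ∀ c : Module.End K (K ⊗[F] V), c ∈ cenK K T ↔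
      ∀ γ, (T γ).baseChange K * c = c * (T γ).baseChange K := by
    intro c
    rw [cenK, Subalgebra.mem_centralizer_iff]
    exact Set.forall_mem_range
  have hbm : ∀ f g : Module.End F V, (f * g).baseChange K = f.baseChange K * g.baseChange K :=
    fun f g => LinearMap.baseChange_mul f g
  have hsC : sK ∈ cenK K T := by
    rw [hmemC]
    intro γ
    rw [hsK, ← hbm, ← hbm, hs]
  have hC : ∀ q : Polynomial K, Polynomial.aeval sK q ∈ cenK K T := by
    intro q
    have h1 : Algebra.adjoin K {sK} ≤ cenK K T := by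
      rw [Algebra.adjoin_le_iff, Set.singleton_subset_iff]
      exact hsC
    exact h1 (Polynomial.aeval_mem_adjoin_singleton K sK)
  have hcpC : ∀ c ∈ cenK K T, ∀ ℓ : K →ₗ[F] F, ∀ γ, cp ℓ c * T γ = T γ * cp ℓ c := by
    intro c hc ℓ γ
    rw [← cp_mul_baseChange, ← cp_baseChange_mul, (hmemC c).1 hc γ]
  let bK := Module.Free.chooseBasis F K
  -- descent
  have hdesc : ∀ c ∈ cenK K T, c * sK = sK * c → ∀ a ∈ R, ∃ t : K, c * ep a = t • ep a := by
    intro c hc hcs a ha
    obtain ⟨τ, hτ⟩ := sum_cp bK c
    have h1 : ∀ t, ∃ r : K, (cp (bK.coord t) c).baseChange K * ep a = r • ep a := by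
      intro t
      have h2 := hs2 (cp (bK.coord t) c) (hcpC c hc _) (by
        rw [← cp_mul_baseChange, ← cp_baseChange_mul]
        exact congrArg _ hcs)
      rw [Algebra.adjoin_singleton_eq_range_aeval] at h2
      obtain ⟨q, hq⟩ := h2
      have hq' : Polynomial.aeval s q = cp (bK.coord t) c := hq
      refine ⟨(q.map (algebraMap F K)).eval a, ?_⟩
      rw [← hev a ha, hF, hq']
    choose r hr using h1
    refine ⟨∑ t ∈ τ, bK t * r t, ?_⟩
    conv_lhs => rw [hτ]
    rw [Finset.sum_mul, Finset.sum_smul]
    refine Finset.sum_congr rfl fun t _ => ?_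
    rw [smul_mul_assoc, hr, smul_smul]
  have hlast : ∀ c ∈ cenK K T, ∀ a ∈ R, ∃ t : K, ep a * c * ep a = t • ep a := by
    intro c hc a ha
    obtain ⟨t, ht⟩ := hdesc (ep a * c * ep a) (mul_mem (mul_mem (hC _) hc) (hC _)) (by
      rw [mul_assoc _ _ sK, hcm a ha, ← mul_assoc, ← mul_assoc, hsep1 a ha, smul_mul_assoc,
        smul_mul_assoc, mul_smul_comm]) a ha
    refine ⟨t, ?_⟩
    rw [mul_assoc _ (ep a) (ep a), hidem a ha] at ht
    exact ht
  -- the adjoint
  obtain ⟨q, hq⟩ : ∃ q : Polynomial F, Polynomial.aeval s q = s' := by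
    rw [Algebra.adjoin_singleton_eq_range_aeval] at hs'
    obtain ⟨q, hq⟩ := hs'
    exact ⟨q, hq⟩
  have hanti : ∀ x y, form x y = - form y x := by
    intro x y
    have h1 := halt (x + y)
    simp only [map_add, LinearMap.add_apply, halt x, halt y, zero_add, add_zero] at h1
    rw [eq_neg_iff_add_eq_zero, add_comm]
    exact h1
  have hadj' : ∀ x y, form (s' x) y = form x (s y) := by
    intro x y
    rw [hanti, ← hadj, ← hanti]
  have hqs' : Polynomial.aeval s' q = s := by
    ext x
    rw [← sub_eq_zero]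
    refine hnd _ fun y => ?_
    rw [map_sub, LinearMap.sub_apply, adj_aeval form s' s hadj' q, hq, hadj, sub_self]
  set qK := q.map (algebraMap F K) with hqK
  have hqq : Polynomial.aeval sK (qK.comp qK) = sK := by
    rw [Polynomial.aeval_comp, hqK, hF, hq, Polynomial.aeval_map_algebraMap]
    have h1 := Polynomial.aeval_algHom_apply (Module.End.baseChangeHom F K V) s' q
    rw [hqs'] at h1
    exact h1
  have hqs : Polynomial.aeval sK qK = s'K := by
    rw [hqK, hF, hq]
  have hadjK : ∀ x y, B (sK x) y = B x (s'K y) := adj_baseChange form s s' hadj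
  have hadjK' : ∀ x y, B (s'K x) y = B x (sK y) := adj_baseChange form s' s hadj'
  have hs'ep : ∀ a ∈ R, s'K * ep a = qK.eval a • ep a := by
    intro a ha
    rw [← hqs, hev a ha]
  have hPs' : Polynomial.aeval s'K P = 0 := by
    refine LinearMap.ext fun x => ?_
    refine hndK _ fun y => ?_
    rw [adj_aeval B s'K sK hadjK' P, hP0, LinearMap.zero_apply, map_zero]
  have hqR : ∀ a ∈ R, ep a ≠ 0 → qK.eval a ∈ R := by
    intro a ha hne
    have h1 := evalE s'K (ep a) (qK.eval a) (hs'ep a ha) P
    rw [hPs', zero_mul] at h1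
    have h2 : P.eval (qK.eval a) = 0 := by
      by_contra h3
      exact hne ((smul_eq_zero.1 h1.symm).resolve_left h3)
    rw [hR, Multiset.mem_toFinset, Polynomial.mem_roots hmon.ne_zero]
    exact h2
  have hqqa : ∀ a ∈ R, ep a ≠ 0 → qK.eval (qK.eval a) = a := by
    intro a ha hne
    have h1 := hev a ha (qK.comp qK)
    rw [hqq, hsep1 a ha, Polynomial.eval_comp] at h1
    exact ((smulE (A := Module.End K (K ⊗[F] V)) (x := ep a) h1).resolve_right hne).symm
  have hadjep : ∀ a ∈ R, ep a ≠ 0 → ∀ x y, B (ep a x) y = B x (ep (qK.eval a) y) := by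
    intro a ha hne x y
    have h1 : Polynomial.aeval s'K (Lagrange.basis R id a) = ep (qK.eval a) := by
      have h2 : Polynomial.aeval s'K (Lagrange.basis R id a) =
          ∑ b ∈ R, (Lagrange.basis R id a).eval (qK.eval b) • ep b := by
        rw [← mul_one (Polynomial.aeval s'K (Lagrange.basis R id a)), ← hsum, Finset.mul_sum]
        refine Finset.sum_congr rfl fun b hb => ?_
        rw [evalE s'K (ep b) (qK.eval b) (hs'ep b hb)]
      rw [h2, Finset.sum_eq_single (qK.eval a)]
      · rw [hqqa a ha hne, hbs a ha, one_smul]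
      · intro b hb hba
        by_cases hb0 : ep b = 0
        · rw [hb0, smul_zero]
        · rw [hbn a _ (hqR b hb hb0) (fun h3 => hba (by rw [h3, hqqa b hb hb0])), zero_smul]
      · intro h3
        exact absurd (hqR a ha hne) h3
    rw [← h1]
    exact adj_aeval B sK s'K hadjK _ x y
  have hepq : ∀ a ∈ R, ep a ≠ 0 → ep (qK.eval a) ≠ 0 := by
    intro a ha hne h0
    apply hne
    refine LinearMap.ext fun x => ?_
    refine hndK _ fun y => ?_
    rw [hadjep a ha hne, h0, LinearMap.zero_apply, map_zero]
  -- the last property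
  have hfar : ∀ a ∈ R, ∀ a' ∈ R, a' ≠ a → qK.eval a' = a → ∀ c ∈ cenK K T,
      ep a' * c * ep a = 0 := by
    intro a ha a' ha' hne hqa c hc
    set c' := ep a' * c * ep a with hc'
    have hc'C : c' ∈ cenK K T := mul_mem (mul_mem (hC _) hc) (hC _)
    have h1 : c' * sK = a • c' := by
      rw [hc', mul_assoc _ _ sK, hcm a ha, mul_smul_comm]
    have h2 : s'K * c' = a • c' := by
      rw [hc', ← mul_assoc, ← mul_assoc, hs'ep a' ha', hqa, smul_mul_assoc, smul_mul_assoc]
    have h3 : sK * c' = a' • c' := by
      rw [hc', ← mul_assoc, ← mul_assoc, hsep1 a' ha', smul_mul_assoc, smul_mul_assoc]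
    have h4 : c' * sK = sK * c' := by
      obtain ⟨τ, hτ⟩ := sum_cp bK c'
      have h5 : ∀ t, cp (bK.coord t) c' * s = s * cp (bK.coord t) c' := by
        intro t
        refine hs3 _ (hcpC c' hc'C _) ?_
        rw [← cp_mul_baseChange, ← cp_baseChange_mul]
        exact congrArg _ (h1.trans h2.symm)
      rw [hτ, Finset.sum_mul, Finset.mul_sum]
      refine Finset.sum_congr rfl fun t _ => ?_
      rw [smul_mul_assoc, mul_smul_comm, hsK, ← hbm, ← hbm, h5]
    rw [h1, h3] at h4
    exact (smulE (A := Module.End K (K ⊗[F] V)) (x := c') h4).resolve_left hne.symm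
  -- discard the zeros
  set R' := R.filter (fun a => ep a ≠ 0) with hR'
  have hmem : ∀ x : R', (x : K) ∈ R := fun x => (Finset.mem_filter.1 x.2).1
  have hne : ∀ x : R', ep x ≠ 0 := fun x => (Finset.mem_filter.1 x.2).2
  let e : Fin R'.card ≃ R' := R'.equivFin.symm
  let sg : R' → R' := fun x => ⟨qK.eval (x : K), Finset.mem_filter.2
    ⟨hqR _ (hmem x) (hne x), hepq _ (hmem x) (hne x)⟩⟩
  have hsg : ∀ x, sg (sg x) = x := fun x => Subtype.ext (hqqa _ (hmem x) (hne x))
  refine ⟨R'.card, fun j => e.symm (sg (e j)), fun j => ep (e j), fun j => hC _, fun j => hne _,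
    ?_, fun j => hidem _ (hmem _), fun j k hjk => ?_, fun j => ?_, fun j x y => ?_,
    fun j c hc => hlast c hc _ (hmem _), fun j hj c hc => ?_⟩
  · rw [Equiv.sum_comp e (fun x : R' => ep x), Finset.sum_coe_sort R' ep, hR', ← hsum]
    exact Finset.sum_filter_ne_zero R
  · refine horth _ (hmem _) _ (hmem _) fun hh => hjk ?_
    exact e.injective (Subtype.ext hh)
  · rw [Equiv.apply_symm_apply, hsg, Equiv.symm_apply_apply]
  · rw [Equiv.apply_symm_apply]
    exact hadjep _ (hmem _) (hne _) x y
  · rw [Equiv.apply_symm_apply]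
    refine hfar _ (hmem _) _ (hmem _) (fun hh => hj ?_) (hqqa _ (hmem _) (hne _)) c hc
    apply e.injective
    rw [Equiv.apply_symm_apply]
    exact Subtype.ext hh

end Pool.Agent.Lib.MP_640417_ag.Lef
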