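import Pool.Agent.Lib.MP_640417_ag.Lef.Defs
import Pool.Agent.Lib.MP_640417_ag.Four.Span
import Pool.Agent.Lib.MP_640417_ag.Four.Trace
import Pool.Agent.Lib.MP_640417_ag.Four.Semi
import Pool.Agent.Lib.MP_640417_ag.Four.Transport
import Pool.Agent.Lib.MP_640417_ag.Frob.BaseRep

/-!
# MP_640417_ag, Lef, module RegL (200 lines): the commutant over `K` is regular and contains the adjoints

Let `T' γ = (T γ).baseChange K` (a `MonoidHom`, see `Four/General.lean`).
* `proj_L`: let `N` be a subspace of `K ⊗ V` stable under all `T' γ`. By `pSemi` (`Four/Semi.lean`; with `Γ`, `T'`, the subalgebra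
  `R = Algebra.adjoin K (range T')`, whose submodule is the span of the `T' γ` (they form a submonoid; see `res_proj` in `Ty/Res.lean`);
  the trace hypothesis is `trace_nondeg_baseChange` (`Four/Span.lean`) with `pTrace` (`Four/Trace.lean`)) there is a projection `p` onto
  `N` commuting with all `T' γ`.
* `reg_L`: let `c ∈ cenK K T`. The kernel and the range of `c` are stable. Let `q` be a projection onto the kernel and `p` onto the
  range which commute with the `T' γ`. `c` maps `ker q` bijectively to `range c` (`ker q ∩ ker c = 0`; `c = c (1 - q)`). Define `d = (inverse)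
  ∘ p`; then `c d c = c` and `d` commutes with the `T' γ`. (See `reg_K` in `Ty/RegK.lean` for the same argument.)
* `adjC_L`: let `c ∈ cenK K T`. The adjoint `c'` for the nondegenerate form `form.baseChange K` exists (`LinearMap.BilinForm`
  adjoints, e.g. `LinearMap.BilinForm.leftAdjointOfNondegenerate`, or by the isomorphism with the dual space).
  `form (c (T' γ x)) (T' γ y) = form (T' γ (c x)) (T' γ y) = μ form (c x) y = μ form x (c' y) = form (T' γ x) (T' γ (c' y))` and the
  left side is `form (T' γ x) (c' (T' γ y))`; `T' γ` is bijective, so `c' T' γ = T' γ c'`.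
-/

set_option autoImplicit false

namespace Pool.Agent.Lib.MP_640417_ag.Lef

open Module TensorProduct Pool.Agent.Lib.MP_640417_ag Pool.Agent.Lib.MP_640417_ag.Frob
  Pool.Agent.Lib.MP_640417_ag.Four

variable {Γ : Type} [Group Γ] {F : Type} [Field F] [CharZero F] {V : Type}
  [AddCommGroup V] [Module F V] [FiniteDimensional F V] (K : Type) [Field K] [Algebra F K]
  (T : Γ →* Module.End F V)

/-- the operators over `K` -/
private noncomputable def TL : Γ →* Module.End K (K ⊗[F] V) :=
  ((Module.End.baseChangeHom F K V : Module.End F V →ₐ[F] Module.End K (K ⊗[F] V)) :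
      Module.End F V →* Module.End K (K ⊗[F] V)).comp T

private lemma TL_apply (γ : Γ) : TL K T γ = (T γ).baseChange K := rfl

private lemma mem_cenK {c : Module.End K (K ⊗[F] V)} :
    c ∈ cenK K T ↔ ∀ γ, (T γ).baseChange K * c = c * (T γ).baseChange K := by
  rw [cenK, Subalgebra.mem_centralizer_iff]
  exact Set.forall_mem_range

private lemma mem_cenK' {c : Module.End K (K ⊗[F] V)} (hc : c ∈ cenK K T) (γ : Γ)
    (y : K ⊗[F] V) : (T γ).baseChange K (c y) = c ((T γ).baseChange K y) :=
  LinearMap.congr_fun ((mem_cenK K T).1 hc γ) y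

theorem proj_L (hss : ∀ W : Submodule F V, (∀ γ, ∀ y ∈ W, T γ y ∈ W) →
    ∃ W' : Submodule F V, (∀ γ, ∀ y ∈ W', T γ y ∈ W') ∧ IsCompl W W')
    (N : Submodule K (K ⊗[F] V)) (hN : ∀ γ, ∀ y ∈ N, (T γ).baseChange K y ∈ N) :
    ∃ p ∈ cenK K T, (∀ y, p y ∈ N) ∧ ∀ y ∈ N, p y = y := by
  obtain ⟨p, hp1, hp2, hp3⟩ := pSemi K (K ⊗[F] V) Γ (TL K T) (by
      intro S hS htr
      exact trace_nondeg_baseChange (fun γ => T γ) (pTrace Γ F V T hss) S hS htr)
    (Algebra.adjoin K (Set.range (TL K T))) (by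
      rw [Algebra.adjoin_eq_span]
      refine Submodule.span_mono ?_
      have h1 : Submonoid.closure (Set.range (TL K T)) ≤ MonoidHom.mrange (TL K T) := by
        rw [Submonoid.closure_le]
        rintro _ ⟨γ, rfl⟩
        exact ⟨γ, rfl⟩
      intro x hx
      exact h1 hx) (by
      intro γ M hM
      exact Subalgebra.mul_mem _ (Subalgebra.mul_mem _ (Algebra.subset_adjoin ⟨γ, rfl⟩) hM)
        (Algebra.subset_adjoin ⟨γ⁻¹, rfl⟩)) N (by
      intro M hM
      induction hM using Algebra.adjoin_induction with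
      | mem x hx =>
        obtain ⟨γ, rfl⟩ := hx
        exact hN γ
      | algebraMap r =>
        intro y hy
        rw [Module.algebraMap_end_apply]
        exact N.smul_mem r hy
      | add x y hx hy ihx ihy =>
        intro z hz
        rw [LinearMap.add_apply]
        exact N.add_mem (ihx z hz) (ihy z hz)
      | mul x y hx hy ihx ihy =>
        intro z hz
        rw [Module.End.mul_apply]
        exact ihx _ (ihy z hz))
  refine ⟨p, ?_, hp1, hp2⟩
  rw [mem_cenK]
  intro γ
  exact (hp3 (TL K T γ) (Algebra.subset_adjoin ⟨γ, rfl⟩)).symm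

private lemma exists_lift {K W : Type} [Field K] [AddCommGroup W] [Module K W]
    (c p : W →ₗ[K] W) (hp : ∀ y, p y ∈ LinearMap.range c) :
    ∃ s : W →ₗ[K] W, ∀ y, c (s y) = p y := by
  obtain ⟨s0, hs0⟩ := c.rangeRestrict.exists_rightInverse_of_surjective
    (LinearMap.range_rangeRestrict _)
  refine ⟨s0 ∘ₗ p.codRestrict _ hp, fun y => ?_⟩
  exact congrArg Subtype.val (LinearMap.congr_fun hs0 (p.codRestrict _ hp y))

theorem reg_L (hss : ∀ W : Submodule F V, (∀ γ, ∀ y ∈ W, T γ y ∈ W) →
    ∃ W' : Submodule F V, (∀ γ, ∀ y ∈ W', T γ y ∈ W') ∧ IsCompl W W') : Reg (cenK K T) := by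
  intro c hc
  have hUv := mem_cenK' K T hc
  obtain ⟨q, hqC, hq1, hq2⟩ := proj_L K T hss (LinearMap.ker c) (by
    intro γ y hy
    rw [LinearMap.mem_ker] at hy ⊢
    rw [← hUv, hy, map_zero])
  obtain ⟨p, hpC, hp1, hp2⟩ := proj_L K T hss (LinearMap.range c) (by
    rintro γ _ ⟨y, rfl⟩
    exact ⟨(T γ).baseChange K y, (hUv γ y).symm⟩)
  have hUq := mem_cenK' K T hqC
  have hUp := mem_cenK' K T hpC
  have hq1' : ∀ y, c (q y) = 0 := fun y => hq1 y
  have hq2' : ∀ y, c y = 0 → q y = y := fun y hy => hq2 y hy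
  have hp2' : ∀ y, p (c y) = c y := fun y => hp2 _ ⟨y, rfl⟩
  obtain ⟨s0, hs0⟩ := exists_lift c p hp1
  let G : (K ⊗[F] V) →ₗ[K] (K ⊗[F] V) := (LinearMap.id - q) ∘ₗ s0
  have hG : ∀ y, G y = s0 y - q (s0 y) := fun y => rfl
  have hcG : ∀ y, c (G y) = p y := by
    intro y
    rw [hG, map_sub, hq1', sub_zero, hs0]
  have hqG : ∀ y, q (G y) = 0 := by
    intro y
    rw [hG, map_sub, hq2' (q (s0 y)) (hq1' _), sub_self]
  refine ⟨G, ?_, ?_⟩
  · rw [mem_cenK]
    intro γ
    apply LinearMap.ext
    intro y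
    rw [Module.End.mul_apply, Module.End.mul_apply]
    have e1 : c ((T γ).baseChange K (G y) - G ((T γ).baseChange K y)) = 0 := by
      rw [map_sub, hcG, ← hUv, hcG, hUp, sub_self]
    have e2 : q ((T γ).baseChange K (G y) - G ((T γ).baseChange K y)) = 0 := by
      rw [map_sub, hqG, sub_zero, ← hUq, hqG, map_zero]
    rw [hq2' _ e1] at e2
    exact sub_eq_zero.1 e2
  · apply LinearMap.ext
    intro y
    rw [Module.End.mul_apply, Module.End.mul_apply, hcG, hp2']

theorem adjC_L (form : LinearMap.BilinForm F V) (halt : ∀ x, form x x = 0)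
    (hnd : ∀ x, (∀ y, form x y = 0) → x = 0) (μ : Γ → Fˣ)
    (heq : ∀ γ x y, form (T γ x) (T γ y) = (μ γ : F) * form x y) :
    AdjC (form.baseChange K) (cenK K T) := by
  intro c hc
  set B := form.baseChange K with hB
  have halt' : ∀ x, B x x = 0 := alt_baseChange K form halt
  have hanti : ∀ x y, B x y = - B y x := by
    intro x y
    have h1 := halt' (x + y)
    simp only [map_add, LinearMap.add_apply, halt' x, halt' y, zero_add, add_zero] at h1
    rw [eq_neg_iff_add_eq_zero, add_comm]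
    exact h1
  have hnd' : ∀ x, (∀ y, B x y = 0) → x = 0 := nondeg_baseChange K form halt hnd
  have hinj : Function.Injective (B : K ⊗[F] V →ₗ[K] Module.Dual K (K ⊗[F] V)) := by
    rw [← LinearMap.ker_eq_bot, LinearMap.ker_eq_bot']
    intro v hv
    exact hnd' v fun y => by rw [hv]; rfl
  have hsurj : Function.Surjective (B : K ⊗[F] V →ₗ[K] Module.Dual K (K ⊗[F] V)) :=
    (LinearMap.injective_iff_surjective_of_finrank_eq_finrank
      (Subspace.dual_finrank_eq (K := K) (V := K ⊗[F] V)).symm).mp hinj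
  let Be : K ⊗[F] V ≃ₗ[K] Module.Dual K (K ⊗[F] V) := LinearEquiv.ofBijective B ⟨hinj, hsurj⟩
  have hBe : ∀ f x, B (Be.symm f) x = f x := by
    intro f x
    exact LinearMap.congr_fun (Be.apply_symm_apply f) x
  let c' : Module.End K (K ⊗[F] V) := Be.symm.toLinearMap ∘ₗ c.dualMap ∘ₗ B
  have hc'0 : ∀ x y, B (c' y) x = B y (c x) := fun x y => hBe _ _
  have hc' : ∀ x y, B (c x) y = B x (c' y) := by
    intro x y
    rw [hanti, hanti x, hc'0]
  refine ⟨c', ?_, hc'⟩
  rw [mem_cenK]
  intro γ
  apply LinearMap.ext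
  intro y
  rw [Module.End.mul_apply, Module.End.mul_apply, ← sub_eq_zero]
  apply hnd'
  intro x
  have hγ : ∀ z, (T γ).baseChange K ((T γ⁻¹).baseChange K z) = z := by
    intro z
    have h1 : TL K T γ * TL K T γ⁻¹ = 1 := by rw [← map_mul, mul_inv_cancel, map_one]
    exact LinearMap.congr_fun h1 z
  have heq' := equivariant_baseChange K form (T γ) (μ γ : F) (heq γ)
  have h2 : ∀ z, B ((T γ).baseChange K z) ((T γ).baseChange K (c' y)) =
      B ((T γ).baseChange K z) (c' ((T γ).baseChange K y)) := by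
    intro z
    rw [← hc', ← mem_cenK' K T hc]
    rw [hB, heq', heq', ← hB, hc']
  have h3 := h2 ((T γ⁻¹).baseChange K x)
  rw [hγ] at h3
  rw [hanti, map_sub, h3, sub_self, neg_zero]

end Pool.Agent.Lib.MP_640417_ag.Lef
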