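import Mathlib

/-!
# MP_640417_ag, Lef, module Reps (100 lines): representatives compatible with an involution

`m j` = the minimum of the class of `j`; `r j = if m j ≤ m (st j) then m j else st (m (st j))`.
-/

set_option autoImplicit false

namespace Pool.Agent.Lib.MP_640417_ag.Lef

theorem exists_reps {n : ℕ} (R : Fin n → Fin n → Prop) (hR : Equivalence R)
    (st : Fin n → Fin n) (hst : ∀ j, st (st j) = j) (hRst : ∀ i j, R i j → R (st i) (st j))
    (hfar : ∀ j, R j (st j) → st j = j) :
    ∃ r : Fin n → Fin n, (∀ j, R j (r j)) ∧ (∀ i j, R i j → r i = r j) ∧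
      ∀ j, r (st j) = st (r j) := by
  classical
  have hne : ∀ j, (Finset.univ.filter (R j)).Nonempty := fun j =>
    ⟨j, Finset.mem_filter.2 ⟨Finset.mem_univ _, hR.refl j⟩⟩
  obtain ⟨m, hm⟩ : ∃ m : Fin n → Fin n, ∀ j, m j = (Finset.univ.filter (R j)).min' (hne j) :=
    ⟨fun j => (Finset.univ.filter (R j)).min' (hne j), fun _ => rfl⟩
  have hmR : ∀ j, R j (m j) := by
    intro j
    have h := Finset.min'_mem _ (hne j)
    rw [← hm] at h
    exact (Finset.mem_filter.1 h).2
  have hmle : ∀ i j, R i j → m i ≤ m j := by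
    intro i j h
    rw [hm i]
    apply Finset.min'_le
    exact Finset.mem_filter.2 ⟨Finset.mem_univ _, hR.trans h (hmR j)⟩
  have hmeq : ∀ i j, R i j → m i = m j := fun i j h =>
    le_antisymm (hmle i j h) (hmle j i (hR.symm h))
  refine ⟨fun j => if m j ≤ m (st j) then m j else st (m (st j)), fun j => ?_, fun i j h => ?_,
    fun j => ?_⟩
  · by_cases hc : m j ≤ m (st j)
    · simp only [if_pos hc]
      exact hmR j
    · simp only [if_neg hc]
      have h := hRst _ _ (hmR (st j))
      rwa [hst] at h
  · simp only [hmeq i j h, hmeq _ _ (hRst i j h)]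
  · simp only [hst]
    rcases lt_trichotomy (m j) (m (st j)) with h | h | h
    · rw [if_neg (not_le.2 h), if_pos h.le]
    · have h1 : R j (st j) := hR.trans (hmR j) (by rw [h]; exact hR.symm (hmR (st j)))
      have h2 : st j = j := hfar j h1
      have h3 : st (m j) = m j := by
        apply hfar
        have h4 := hRst _ _ (hmR j)
        rw [h2] at h4
        exact hR.trans (hR.symm (hmR j)) h4
      rw [if_pos h.ge, if_pos h.le, ← h, h3]
    · rw [if_pos h.le, if_neg (not_le.2 h), hst]

end Pool.Agent.Lib.MP_640417_ag.Lef
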