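import Pool.Agent.Lib.MP_640417_ag.Lef.Defs
import Pool.Agent.Lib.MP_640417_ag.Lef.Reps

/-!
# MP_640417_ag, Lef, module Units (250 lines): matrix units

`R i j` iff `∃ c ∈ C, ε i * c * ε j ≠ 0`.
1. If `a = ε i * c * ε j ≠ 0`, `c ∈ C`, there is `b ∈ C` with `b = ε j * b * ε i`, `b * a = ε j`, `a * b = ε i`: by `Reg` there is
   `d ∈ C` with `a * d * a = a`; let `b = ε j * d * ε i`, `a * b * a = a` (as `a ε j = a`, `ε i a = a`). `b * a = ε j (d ε i c) ε j = t • ε j`
   by `one`, `a = a * (b * a) = t • a`, so `t = 1`. `a * b = ε i (..) ε i = t' • ε i`, `a = (a b) a = t' • a`, `t' = 1`.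
2. `R` is an equivalence relation: reflexive (`c = 1`, `ne`), symmetric (1.; `b ≠ 0` because `b a = ε j ≠ 0`), transitive: `a : j → i`,
   `a' : k → j` with inverses `b`, `b'`: `a a'` is nonzero because `b a a' b' = b a (a' b') = ε j ε j = ε j ≠ 0`.
3. `R i j → R (st i) (st j)`: by `AdjC` let `c'` be the adjoint of `c`; if `ε (st j) * c' * ε (st i) = 0` then
   `form (ε i c ε j x) y = form x (ε (st j) c' ε (st i) y) = 0` for all `x y`, so `ε i c ε j = 0` (nondegenerate). So
   `R (st j) (st i)`; symmetric.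
4. `R j (st j) → st j = j`: this is `far` (with `R (st j) j`).
Take `r` from `exists_reps`. `R (r j) j`, so `r (r j) = r j`. For `r j = j` let `u j = v j = ε j`; otherwise (`R j (r j)`) take
`u j = a = ε j * c * ε (r j)`, `v j = b` from 1. (choose). Then `eu ue ve ev uv vu` hold, and `u (r j) = v (r j) = ε (r j)`.
* `one`: if `r j ≠ r k` then not `R j k` and `ε j c ε k = 0`, `t = 0`. If `r j = r k`: `v j (c) u k = ε (r j) (v j c u k) ε (r j) = t • ε (r j)`
  (`one` of `Sys`), so `ε j c ε k = u j (v j c u k) v k = t • u j ε (r j) v k = t • u j v k`.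
* `adj`: let `u'` be the adjoint of `u j` (`AdjC`). `form (u j x) y = form (ε j u j ε (r j) x) y = form x (ε (st (r j)) u' ε (st j) y)`, and
  `ε (st (r j)) u' ε (st j) = a • (u (st (r j)) * v (st j)) = a • v (st j)` because `st (r j) = r (st j)` is a representative and
  `u (r (st j)) = ε (r (st j))` (so `ε (r (st j)) * v (st j) = v (st j)`). In the same way the adjoint of `v j` is
  `ε (st j) v' ε (st (r j)) = b • u (st j) * v (r (st j)) = b • u (st j)`. `a b = 1`:
  `form x (ε (st j) y) = form (ε j x) y = form (u j (v j x)) y = a form (v j x) (v (st j) y) = a b form x (u (st j) (v (st j) y)) =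
  a b form x (ε (st j) y)`, and there are `x y` with `form x (ε (st j) y) ≠ 0` (`ne`, and nondegeneracy: `hnd` is for the left
  argument; form alternating, so also for the right argument, `anti` in `Four/Struct.lean`).
-/

set_option autoImplicit false

namespace Pool.Agent.Lib.MP_640417_ag.Lef

open Module Pool.Agent.Lib.MP_640417_ag.Four

variable {K V : Type} [Field K] [AddCommGroup V] [Module K V] {form : LinearMap.BilinForm K V}
  {C : Subalgebra K (Module.End K V)} {N : ℕ} {st : Fin N → Fin N} {ε : Fin N → Module.End K V}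

/-- Step 1. -/
theorem Units_inv (hS : Sys form C N st ε) (hreg : Reg C) {i j : Fin N} {c : Module.End K V}
    (hc : c ∈ C) (hne : ε i * c * ε j ≠ 0) :
    ∃ b ∈ C, ε j * b = b ∧ b * ε i = b ∧ b * (ε i * c * ε j) = ε j ∧
      (ε i * c * ε j) * b = ε i := by
  obtain ⟨a, ha⟩ : ∃ a, a = ε i * c * ε j := ⟨_, rfl⟩
  rw [← ha] at hne ⊢
  have haC : a ∈ C := by
    rw [ha]
    exact C.mul_mem (C.mul_mem (hS.mem i) hc) (hS.mem j)
  have hia : ε i * a = a := by
    rw [ha, ← mul_assoc, ← mul_assoc, hS.idem]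
  have haj : a * ε j = a := by
    rw [ha, mul_assoc, hS.idem]
  obtain ⟨d, hdC, hd⟩ := hreg a haC
  obtain ⟨b, hb⟩ : ∃ b, b = ε j * d * ε i := ⟨_, rfl⟩
  have hbC : b ∈ C := by
    rw [hb]
    exact C.mul_mem (C.mul_mem (hS.mem j) hdC) (hS.mem i)
  have hjb : ε j * b = b := by
    rw [hb, ← mul_assoc, ← mul_assoc, hS.idem]
  have hbi : b * ε i = b := by
    rw [hb, mul_assoc, hS.idem]
  have haba : a * b * a = a := by
    calc a * b * a = (a * ε j) * d * (ε i * a) := by rw [hb]; simp only [mul_assoc]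
      _ = a := by rw [haj, hia, hd]
  have key : ∀ t : K, a = t • a → t = 1 := by
    intro t ht
    by_contra h
    apply hne
    have h1 : (1 - t) • a = 0 := by rw [sub_smul, one_smul, ← ht, sub_self]
    exact (smul_eq_zero.1 h1).resolve_left (sub_ne_zero.2 (Ne.symm h))
  refine ⟨b, hbC, hjb, hbi, ?_, ?_⟩
  · obtain ⟨t, ht⟩ := hS.one j (b * a) (C.mul_mem hbC haC)
    have h1 : ε j * (b * a) * ε j = b * a := by
      rw [← mul_assoc, hjb, mul_assoc, haj]
    rw [h1] at ht
    have h2 : t = 1 := by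
      apply key
      have h3 : a * b * a = t • a := by rw [mul_assoc, ht, mul_smul_comm, haj]
      rw [← h3, haba]
    rw [ht, h2, one_smul]
  · obtain ⟨t, ht⟩ := hS.one i (a * b) (C.mul_mem haC hbC)
    have h1 : ε i * (a * b) * ε i = a * b := by
      rw [← mul_assoc, hia, mul_assoc, hbi]
    rw [h1] at ht
    have h2 : t = 1 := by
      apply key
      have h3 : a * b * a = t • a := by rw [ht, smul_mul_assoc, hia]
      rw [← h3, haba]
    rw [ht, h2, one_smul]

theorem exists_uv (halt : ∀ x, form x x = 0) (hnd : ∀ x, (∀ y, form x y = 0) → x = 0)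
    (hS : Sys form C N st ε) (hreg : Reg C) (hadj : AdjC form C) :
    ∃ (r : Fin N → Fin N) (u v : Fin N → Module.End K V), UV form C N st ε r u v := by
  classical
  obtain ⟨R, hRdef⟩ : ∃ R : Fin N → Fin N → Prop,
      ∀ i j, R i j ↔ ∃ c ∈ C, ε i * c * ε j ≠ 0 := ⟨fun i j => ∃ c ∈ C, ε i * c * ε j ≠ 0,
        fun _ _ => Iff.rfl⟩
  have hsymm : ∀ i j, R i j → R j i := by
    intro i j h
    obtain ⟨c, hc, hne⟩ := (hRdef i j).1 h
    obtain ⟨b, hbC, hjb, hbi, hba, hab⟩ := Units_inv hS hreg hc hne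
    refine (hRdef j i).2 ⟨b, hbC, ?_⟩
    rw [hjb, hbi]
    intro h0
    apply hS.ne j
    rw [← hba, h0, zero_mul]
  have hR : Equivalence R := by
    refine ⟨fun i => ?_, fun {i j} h => hsymm i j h, fun {i j k} h h' => ?_⟩
    · refine (hRdef i i).2 ⟨1, C.one_mem, ?_⟩
      rw [mul_one, hS.idem]
      exact hS.ne i
    · obtain ⟨c, hc, hne⟩ := (hRdef i j).1 h
      obtain ⟨c', hc', hne'⟩ := (hRdef j k).1 h'
      obtain ⟨b, hbC, hjb, hbi, hba, hab⟩ := Units_inv hS hreg hc hne
      obtain ⟨b', hbC', hjb', hbi', hba', hab'⟩ := Units_inv hS hreg hc' hne'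
      refine (hRdef i k).2 ⟨c * ε j * c', C.mul_mem (C.mul_mem hc (hS.mem j)) hc', ?_⟩
      intro h0
      apply hS.ne j
      have h1 : (b * (ε i * c * ε j)) * ((ε j * c' * ε k) * b') = ε j := by
        rw [hba, hab', hS.idem]
      have h2 : (b * (ε i * c * ε j)) * ((ε j * c' * ε k) * b') =
          b * (ε i * (c * ε j * c') * ε k) * b' := by
        have h3 : ε j * (ε j * (c' * (ε k * b'))) = ε j * (c' * (ε k * b')) := by
          rw [← mul_assoc, hS.idem]
        simp only [mul_assoc]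
        rw [h3]
      rw [← h1, h2, h0, mul_zero, zero_mul]
  have hRst : ∀ i j, R i j → R (st i) (st j) := by
    intro i j h
    obtain ⟨c, hc, hne⟩ := (hRdef i j).1 h
    obtain ⟨c', hc', hcc'⟩ := hadj c hc
    apply hsymm
    refine (hRdef _ _).2 ⟨c', hc', ?_⟩
    intro h0
    apply hne
    ext x
    rw [LinearMap.zero_apply]
    apply hnd
    intro y
    have h1 : form ((ε i * c * ε j) x) y = form x ((ε (st j) * c' * ε (st i)) y) := by
      simp only [Module.End.mul_apply]
      rw [hS.adj i, hcc', hS.adj j]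
    rw [h1, h0, LinearMap.zero_apply, map_zero]
  have hfar : ∀ j, R j (st j) → st j = j := by
    intro j h
    by_contra hne
    obtain ⟨c, hc, hcne⟩ := (hRdef _ _).1 (hsymm _ _ h)
    exact hcne (hS.far j hne c hc)
  obtain ⟨r, hr1, hr2, hr3⟩ := exists_reps R hR st hS.inv hRst hfar
  have hrr : ∀ j, r (r j) = r j := fun j => (hr2 _ _ (hr1 j)).symm
  have hex : ∀ j, ∃ p : Module.End K V × Module.End K V, p.1 ∈ C ∧ p.2 ∈ C ∧
      p.1 * p.2 = ε j ∧ p.2 * p.1 = ε (r j) ∧ ε j * p.1 = p.1 ∧ p.1 * ε (r j) = p.1 ∧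
      p.2 * ε j = p.2 ∧ ε (r j) * p.2 = p.2 ∧ (r j = j → p.1 = ε j ∧ p.2 = ε j) := by
    intro j
    by_cases hj : r j = j
    · refine ⟨(ε j, ε j), hS.mem j, hS.mem j, hS.idem j, ?_, hS.idem j, ?_, hS.idem j, ?_,
        fun _ => ⟨rfl, rfl⟩⟩
      · rw [hj]; exact hS.idem j
      · rw [hj]; exact hS.idem j
      · rw [hj]; exact hS.idem j
    · obtain ⟨c, hc, hne⟩ := (hRdef j (r j)).1 (hr1 j)
      obtain ⟨b, hbC, hjb, hbi, hba, hab⟩ := Units_inv hS hreg hc hne
      refine ⟨(ε j * c * ε (r j), b), C.mul_mem (C.mul_mem (hS.mem j) hc) (hS.mem _), hbC, hab,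
        hba, ?_, ?_, hbi, hjb, fun h => absurd h hj⟩
      · show ε j * (ε j * c * ε (r j)) = ε j * c * ε (r j)
        rw [← mul_assoc, ← mul_assoc, hS.idem]
      · show ε j * c * ε (r j) * ε (r j) = ε j * c * ε (r j)
        rw [mul_assoc, hS.idem]
  choose p hp using hex
  obtain ⟨u, hu⟩ : ∃ u : Fin N → Module.End K V, ∀ j, u j = (p j).1 := ⟨fun j => (p j).1, fun _ => rfl⟩
  obtain ⟨v, hv⟩ : ∃ v : Fin N → Module.End K V, ∀ j, v j = (p j).2 := ⟨fun j => (p j).2, fun _ => rfl⟩
  simp only [← hu, ← hv] at hp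
  have huC : ∀ j, u j ∈ C := fun j => (hp j).1
  have hvC : ∀ j, v j ∈ C := fun j => (hp j).2.1
  have huv : ∀ j, u j * v j = ε j := fun j => (hp j).2.2.1
  have hvu : ∀ j, v j * u j = ε (r j) := fun j => (hp j).2.2.2.1
  have heu : ∀ j, ε j * u j = u j := fun j => (hp j).2.2.2.2.1
  have hue : ∀ j, u j * ε (r j) = u j := fun j => (hp j).2.2.2.2.2.1
  have hve : ∀ j, v j * ε j = v j := fun j => (hp j).2.2.2.2.2.2.1
  have hev : ∀ j, ε (r j) * v j = v j := fun j => (hp j).2.2.2.2.2.2.2.1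
  have hur : ∀ j, u (r j) = ε (r j) := fun j => ((hp (r j)).2.2.2.2.2.2.2.2 (hrr j)).1
  have hvr : ∀ j, v (r j) = ε (r j) := fun j => ((hp (r j)).2.2.2.2.2.2.2.2 (hrr j)).2
  have hone : ∀ j k, ∀ c ∈ C, ∃ t : K, ε j * c * ε k = t • (u j * v k) := by
    intro j k c hc
    by_cases hjk : r j = r k
    · obtain ⟨t, ht⟩ := hS.one (r j) (v j * c * u k)
        (C.mul_mem (C.mul_mem (hvC j) hc) (huC k))
      refine ⟨t, ?_⟩
      have h1 : ε (r j) * (v j * c * u k) * ε (r j) = v j * c * u k := by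
        rw [← mul_assoc, ← mul_assoc, hev, mul_assoc, hjk, hue]
      rw [h1] at ht
      calc ε j * c * ε k = (u j * v j) * c * (u k * v k) := by rw [huv, huv]
        _ = u j * (v j * c * u k) * v k := by simp only [mul_assoc]
        _ = u j * (t • ε (r j)) * v k := by rw [ht]
        _ = t • (u j * v k) := by rw [mul_smul_comm, hue, smul_mul_assoc]
    · refine ⟨0, ?_⟩
      rw [zero_smul]
      by_contra hne
      exact hjk (hr2 _ _ ((hRdef j k).2 ⟨c, hc, hne⟩))
  refine ⟨r, u, v, ⟨hrr, hr3, huC, hvC, huv, hvu, heu, hue, hve, hev, hur, hvr, hone, ?_⟩⟩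
  intro j
  obtain ⟨u', hu'C, hu'⟩ := hadj (u j) (huC j)
  obtain ⟨v', hv'C, hv'⟩ := hadj (v j) (hvC j)
  obtain ⟨a, ha⟩ := hone (r (st j)) (st j) u' hu'C
  obtain ⟨b, hb⟩ := hone (st j) (r (st j)) v' hv'C
  rw [hur, hev] at ha
  rw [hvr, hue] at hb
  have h1 : ∀ x y, form (u j x) y = a * form x (v (st j) y) := by
    intro x y
    have h2 : u j x = (ε j * u j * ε (r j)) x := by rw [heu, hue]
    rw [h2]
    simp only [Module.End.mul_apply]
    rw [hS.adj j, hu', hS.adj (r j), ← hr3]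
    have h3 : ε (r (st j)) (u' (ε (st j) y)) = (ε (r (st j)) * u' * ε (st j)) y := rfl
    rw [h3, ha, LinearMap.smul_apply, map_smul, smul_eq_mul]
  have h2 : ∀ x y, form (v j x) y = b * form x (u (st j) y) := by
    intro x y
    have h2 : v j x = (ε (r j) * v j * ε j) x := by rw [hev, hve]
    rw [h2]
    simp only [Module.End.mul_apply]
    rw [hS.adj (r j), hv', hS.adj j, ← hr3]
    have h3 : ε (st j) (v' (ε (r (st j)) y)) = (ε (st j) * v' * ε (r (st j))) y := rfl
    rw [h3, hb, LinearMap.smul_apply, map_smul, smul_eq_mul]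
  refine ⟨a, b, ?_, h1, h2⟩
  have h3 : ∀ x y, form x (ε (st j) y) = a * b * form x (ε (st j) y) := by
    intro x y
    calc form x (ε (st j) y) = form (ε j x) y := (hS.adj j x y).symm
      _ = form (u j (v j x)) y := by rw [← huv j]; rfl
      _ = a * (b * form x (u (st j) (v (st j) y))) := by rw [h1, h2]
      _ = a * b * form x (ε (st j) y) := by rw [← huv (st j), mul_assoc]; rfl
  obtain ⟨x, y, hxy⟩ : ∃ x y, form x (ε (st j) y) ≠ 0 := by
    by_contra hcon
    push Not at hcon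
    apply hS.ne (st j)
    ext y
    rw [LinearMap.zero_apply]
    apply hnd
    intro x
    rw [anti halt, hcon, neg_zero]
  have h4 : (1 - a * b) * form x (ε (st j) y) = 0 := by
    rw [sub_mul, one_mul, ← h3, sub_self]
  have h5 := (mul_eq_zero.1 h4).resolve_right hxy
  exact (sub_eq_zero.1 h5).symm

end Pool.Agent.Lib.MP_640417_ag.Lef
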