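import Pool.Agent.Lib.MP_640417_ag.Lef.FftK
import Pool.Agent.Lib.MP_640417_ag.Lef.Units
import Pool.Agent.Lib.MP_640417_ag.Lef.Eps
import Pool.Agent.Lib.MP_640417_ag.Lef.RegL
import Pool.Agent.Lib.MP_640417_ag.Lef.SkewL
import Pool.Agent.Lib.MP_640417_ag.Dfr.FullK
import Pool.Agent.Lib.MP_640417_ag.Dfr.HasSys
import Pool.Agent.Lib.MP_640417_ag.Gn.ResG
import Pool.Agent.Lib.MP_640417_ag.Four.General

/-!
# MP_640417_ag, Lef: the first fundamental theorem without factors of type III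
-/

set_option autoImplicit false

namespace Pool.Agent.Lib.MP_640417_ag.Lef

open Module TensorProduct Pool.Agent.Lib.MP_640417_ag Pool.Agent.Lib.MP_640417_ag.Frob
  Pool.Agent.Lib.MP_640417_ag.Four Pool.Agent.Lib.MP_640417_ag.Ty
  Pool.Agent.Lib.MP_640417_ag.Dfr

section

variable {Γ : Type} [Group Γ] [TopologicalSpace Γ] {F : Type} [Field F] [TopologicalSpace F]
  [CharZero F] {V : Type} [AddCommGroup V] [Module F V] [FiniteDimensional F V]

omit [CharZero F] [TopologicalSpace F] [FiniteDimensional F V] in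
theorem be_mem {F' : Type} [Field F'] [Algebra F F'] (n m : ℕ)
    {x : ExteriorAlgebra F (Fin n → V)} (hx : x ∈ ⋀[F]^m (Fin n → V)) :
    be F' n x ∈ ⋀[F']^m (Fin n → F' ⊗[F] V) := by
  induction hx using Submodule.pow_induction_on_left' with
  | algebraMap r =>
    rw [AlgHom.commutes, IsScalarTower.algebraMap_apply F F']
    change _ ∈ (LinearMap.range (ExteriorAlgebra.ι F' : (Fin n → F' ⊗[F] V) →ₗ[F'] _)) ^ 0
    rw [pow_zero]
    exact Submodule.algebraMap_mem _
  | add x y i hx hy h₁ h₂ =>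
    rw [map_add]
    exact Submodule.add_mem _ h₁ h₂
  | mem_mul v hv i x hx h =>
    rw [map_mul]
    change _ ∈ (LinearMap.range (ExteriorAlgebra.ι F' : (Fin n → F' ⊗[F] V) →ₗ[F'] _)) ^ i.succ
    rw [pow_succ']
    obtain ⟨w, rfl⟩ := hv
    refine Submodule.mul_mem_mul ?_ h
    rw [be_ι]
    exact LinearMap.mem_range_self _ _

/-- the representation over `K` -/
noncomputable def TK (ρ : H1Rep Γ F V) :
    Γ →* Module.End (AlgebraicClosure F) (AlgebraicClosure F ⊗[F] V) :=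
  ((Module.End.baseChangeHom F (AlgebraicClosure F) V : Module.End F V →ₐ[F]
    Module.End (AlgebraicClosure F) (AlgebraicClosure F ⊗[F] V)) :
      Module.End F V →* Module.End (AlgebraicClosure F) (AlgebraicClosure F ⊗[F] V)).comp ρ.T

omit [CharZero F] [FiniteDimensional F V] in
theorem TK_apply (ρ : H1Rep Γ F V) (γ : Γ) :
    TK ρ γ = (ρ.T γ).baseChange (AlgebraicClosure F) := rfl

/-- the character over `K` -/
noncomputable def chK (ρ : H1Rep Γ F V) : Γ →* (AlgebraicClosure F)ˣ :=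
  (Units.map (algebraMap F (AlgebraicClosure F) : F →* AlgebraicClosure F)).comp ρ.χ

omit [CharZero F] [FiniteDimensional F V] in
theorem chK_inv (ρ : H1Rep Γ F V) (γ : Γ) : ((chK ρ γ)⁻¹ : (AlgebraicClosure F)ˣ).val =
    algebraMap F (AlgebraicClosure F) ((ρ.χ γ)⁻¹ : Fˣ).val := by
  simp only [chK, MonoidHom.comp_apply, ← map_inv, Units.coe_map, MonoidHom.coe_coe]

omit [CharZero F] in
theorem formK_eq (ρ : H1Rep Γ F V) (γ : Γ) (x y : AlgebraicClosure F ⊗[F] V) :
    ρ.form.baseChange (AlgebraicClosure F) (TK ρ γ x) (TK ρ γ y) =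
      ((chK ρ γ)⁻¹ : (AlgebraicClosure F)ˣ).val *
        ρ.form.baseChange (AlgebraicClosure F) x y := by
  rw [chK_inv]
  exact equivariant_baseChange (AlgebraicClosure F) ρ.form (ρ.T γ) _ (ρ.form_equivariant γ) x y

/-- idempotents and matrix units in the commutant -/
theorem exists_data (ρ : H1Rep Γ F V) (hss : Semisimple ρ) (h3 : NoTypeIII ρ)
    (hfull : ∀ c, CommF ρ c → ∀ γ, c * ρ.T γ = ρ.T γ * c) :
    ∃ (N : ℕ) (st r : Fin N → Fin N)
      (ε u v : Fin N → Module.End (AlgebraicClosure F) (AlgebraicClosure F ⊗[F] V)),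
      Sys (ρ.form.baseChange (AlgebraicClosure F)) (comK ρ) N st ε ∧
      UV (ρ.form.baseChange (AlgebraicClosure F)) (comK ρ) N st ε r u v := by
  have hchar : CharZero (AlgebraicClosure F) :=
    charZero_of_injective_algebraMap (algebraMap F (AlgebraicClosure F)).injective
  have hcomm : ∀ c : Module.End F V, CommF ρ c ↔ ∀ γ, c * ρ.T γ = ρ.T γ * c := fun c =>
    ⟨hfull c, fun h => ⟨⊤, fun γ _ => h γ⟩⟩
  obtain ⟨s, s', hs, hadj, hs', hsq, hs2, hs3⟩ := h3
  obtain ⟨N, st, ε, hS⟩ := exists_sys (AlgebraicClosure F) ρ.T ρ.form ρ.form_alt ρ.form_nondeg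
    s s' (hfull s hs) hadj hs' hsq (fun c hc => hs2 c ((hcomm c).mpr hc))
    (fun c hc => hs3 c ((hcomm c).mpr hc))
  rw [comK_eq ρ hfull]
  obtain ⟨r, u, v, h⟩ := exists_uv (alt_baseChange _ ρ.form ρ.form_alt)
    (nondeg_baseChange _ ρ.form ρ.form_alt ρ.form_nondeg) hS (reg_L _ ρ.T hss)
    (adjC_L _ ρ.T ρ.form ρ.form_alt ρ.form_nondeg (fun γ => (ρ.χ γ)⁻¹) ρ.form_equivariant)
  exact ⟨N, st, r, ε, u, v, hS, h⟩

/-- The theorem if the commutant commutes with all of `Γ`. -/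
theorem fft_full_of (ρ : H1Rep Γ F V) (hss : Semisimple ρ) (h3 : HasSys ρ)
    (hfull : ∀ c, CommF ρ c → ∀ γ, c * ρ.T γ = ρ.T γ * c)
    (n m : ℕ) (x : ExteriorAlgebra F (Fin n → V)) (hx : x ∈ ⋀[F]^m (Fin n → V))
    (hk : ∀ X : Module.End F V, (∀ x y, ρ.form (X x) y + ρ.form x (X y) = 0) →
      (∀ c, CommF ρ c → X * c = c * X) → Dv n X x = 0) :
    x ∈ divisorAlg (fun γ => (ρ.T γ).compLeft (Fin n)) ρ.χ := by
  have hchar : CharZero (AlgebraicClosure F) :=
    charZero_of_injective_algebraMap (algebraMap F (AlgebraicClosure F)).injective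
  obtain ⟨N, st, r, ε, u, v, hS, h⟩ := exists_data_of ρ hss h3 hfull
  apply mem_of_be (F' := AlgebraicClosure F) (fun γ => ρ.T γ) ρ.χ n x
  have hbe : be (AlgebraicClosure F) n x ∈ ⋀[AlgebraicClosure F]^m
      (Fin n → AlgebraicClosure F ⊗[F] V) := be_mem n m hx
  refine fft_K (form := ρ.form.baseChange (AlgebraicClosure F)) (C := comK ρ) (TK ρ) (chK ρ)
    (alt_baseChange _ ρ.form ρ.form_alt)
    (nondeg_baseChange _ ρ.form ρ.form_alt ρ.form_nondeg) (formK_eq ρ)
    (fun c hc γ => comK_full ρ hfull hc γ) hS h n m _ hbe fun X hX hXc => ?_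
  refine skew_K (AlgebraicClosure F) ρ.T ρ.form ρ.form_alt n x (fun X hX hXc => ?_) X hX
    (fun c hc => hXc c (by rw [comK_eq ρ hfull]; exact hc))
  exact hk X hX fun c hc => hXc c (hfull c hc)

/-- The theorem if the commutant commutes with all of `Γ`. -/
theorem fft_full (ρ : H1Rep Γ F V) (hss : Semisimple ρ) (h3 : NoTypeIII ρ)
    (hfull : ∀ c, CommF ρ c → ∀ γ, c * ρ.T γ = ρ.T γ * c)
    (n m : ℕ) (x : ExteriorAlgebra F (Fin n → V)) (hx : x ∈ ⋀[F]^m (Fin n → V))
    (hk : ∀ X : Module.End F V, (∀ x y, ρ.form (X x) y + ρ.form x (X y) = 0) →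
      (∀ c, CommF ρ c → X * c = c * X) → Dv n X x = 0) :
    x ∈ divisorAlg (fun γ => (ρ.T γ).compLeft (Fin n)) ρ.χ :=
  fft_full_of ρ hss (hasSys_full ρ h3 hfull) hfull n m x hx hk

end

section general

variable {F : Type} [NontriviallyNormedField F] [CharZero F]
  {Γ : Type} [Group Γ] [TopologicalSpace Γ] [IsTopologicalGroup Γ] [CompactSpace Γ] {V : Type}
  [AddCommGroup V] [Module F V] [FiniteDimensional F V] (ρ : H1Rep Γ F V) (U : OpenSubgroup Γ)

theorem div_res (n : ℕ) : divisorAlg (fun γ : U => ((res ρ U).T γ).compLeft (Fin n)) (res ρ U).χ =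
    divisorAlg (fun γ : Γ => (ρ.T γ).compLeft (Fin n)) ρ.χ := by
  unfold divisorAlg
  congr 1
  ext y
  exact Gn.tate_resG ρ U n 1 y

theorem noIII_res (h : NoTypeIII ρ) : NoTypeIII (res ρ U) := by
  unfold NoTypeIII at *
  simp only [commF_res]
  exact h

/-- **The first fundamental theorem without factors of type III.** -/
theorem fft (hss : Semisimple ρ) (h3 : NoTypeIII ρ)
    (n m : ℕ) (x : ExteriorAlgebra F (Fin n → V)) (hx : x ∈ ⋀[F]^m (Fin n → V))
    (hk : ∀ X : Module.End F V, (∀ x y, ρ.form (X x) y + ρ.form x (X y) = 0) →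
      (∀ c, CommF ρ c → X * c = c * X) → Dv n X x = 0) :
    x ∈ divisorAlg (fun γ => (ρ.T γ).compLeft (Fin n)) ρ.χ := by
  obtain ⟨U, hU⟩ := exists_U0 ρ
  rw [← div_res ρ U n]
  exact fft_full (res ρ U) (semi_res ρ U hss) (noIII_res ρ U h3)
    (fun c hc γ => (hU γ.1).mp γ.2 c ((commF_res ρ U c).mp hc)) n m x hx
    fun X hX hXc => hk X hX fun c hc => hXc c ((commF_res ρ U c).mpr hc)

end general

end Pool.Agent.Lib.MP_640417_ag.Lef
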