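import Pool.Agent.Lib.MP_640417_ag.Ty.Res
import Pool.Agent.Lib.MP_640417_ag.Four.SymBasis

/-!
# MP_640417_ag, Lef (the first fundamental theorem without factors of type III): definitions
-/

set_option autoImplicit false

namespace Pool.Agent.Lib.MP_640417_ag.Lef

open Module TensorProduct Pool.Agent.Lib.MP_640417_ag Pool.Agent.Lib.MP_640417_ag.Frob
  Pool.Agent.Lib.MP_640417_ag.Four Pool.Agent.Lib.MP_640417_ag.Ty

/-- The commutant has an element `s` with squarefree minimal polynomial, whose adjoint `s'` is a
polynomial in `s`, such that everything in the commutant which commutes with `s` is a polynomial in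
`s`, and everything in the commutant which intertwines `s` and `s'` commutes with `s`. (For an abelian
variety this excludes exactly the factors of type III.) -/
def NoTypeIII {Γ : Type} [Group Γ] [TopologicalSpace Γ] {F : Type} [Field F] [TopologicalSpace F]
    {V : Type} [AddCommGroup V] [Module F V] (ρ : H1Rep Γ F V) : Prop :=
  ∃ s s' : Module.End F V, CommF ρ s ∧ (∀ x y, ρ.form (s x) y = ρ.form x (s' y)) ∧
    s' ∈ Algebra.adjoin F {s} ∧ Squarefree (minpoly F s) ∧
    (∀ c : Module.End F V, CommF ρ c → c * s = s * c → c ∈ Algebra.adjoin F {s}) ∧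
    ∀ c : Module.End F V, CommF ρ c → c * s = s' * c → c * s = s * c

section alg

variable {K V : Type} [Field K] [AddCommGroup V] [Module K V]

/-- `C` is a von Neumann regular ring. -/
def Reg (C : Subalgebra K (Module.End K V)) : Prop := ∀ c ∈ C, ∃ d ∈ C, c * d * c = c

/-- `C` contains the adjoints of its elements. -/
def AdjC (form : LinearMap.BilinForm K V) (C : Subalgebra K (Module.End K V)) : Prop :=
  ∀ c ∈ C, ∃ c' ∈ C, ∀ x y, form (c x) y = form x (c' y)

/-- A decomposition of `1` into minimal orthogonal idempotents of `C`, permuted by the adjunction, such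
that no member is equivalent to its adjoint, except if it is self-adjoint. -/
structure Sys (form : LinearMap.BilinForm K V) (C : Subalgebra K (Module.End K V)) (N : ℕ)
    (st : Fin N → Fin N) (ε : Fin N → Module.End K V) : Prop where
  mem : ∀ j, ε j ∈ C
  ne : ∀ j, ε j ≠ 0
  sum : ∑ j, ε j = 1
  idem : ∀ j, ε j * ε j = ε j
  orth : ∀ j k, j ≠ k → ε j * ε k = 0
  inv : ∀ j, st (st j) = j
  adj : ∀ j x y, form (ε j x) y = form x (ε (st j) y)
  one : ∀ j, ∀ c ∈ C, ∃ t : K, ε j * c * ε j = t • ε j
  far : ∀ j, st j ≠ j → ∀ c ∈ C, ε (st j) * c * ε j = 0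

/-- Matrix units: `r j` is the representative of the class of `j`, `u j` and `v j` are inverse
isomorphisms between the ranges of `ε (r j)` and `ε j`. -/
structure UV (form : LinearMap.BilinForm K V) (C : Subalgebra K (Module.End K V)) (N : ℕ)
    (st : Fin N → Fin N) (ε : Fin N → Module.End K V) (r : Fin N → Fin N)
    (u v : Fin N → Module.End K V) : Prop where
  rr : ∀ j, r (r j) = r j
  rst : ∀ j, r (st j) = st (r j)
  uC : ∀ j, u j ∈ C
  vC : ∀ j, v j ∈ C
  uv : ∀ j, u j * v j = ε j
  vu : ∀ j, v j * u j = ε (r j)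
  eu : ∀ j, ε j * u j = u j
  ue : ∀ j, u j * ε (r j) = u j
  ve : ∀ j, v j * ε j = v j
  ev : ∀ j, ε (r j) * v j = v j
  ur : ∀ j, u (r j) = ε (r j)
  vr : ∀ j, v (r j) = ε (r j)
  one : ∀ j k, ∀ c ∈ C, ∃ t : K, ε j * c * ε k = t • (u j * v k)
  adj : ∀ j, ∃ a b : K, a * b = 1 ∧ (∀ x y, form (u j x) y = a * form x (v (st j) y)) ∧
    ∀ x y, form (v j x) y = b * form x (u (st j) y)

/-- The extension to `V` of an endomorphism of the sum of the ranges of the `ε (r j)`. -/
noncomputable def ext {N : ℕ} (u v : Fin N → Module.End K V) (Y : Module.End K V) :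
    Module.End K V := ∑ j, u j * Y * v j

end alg

/-- the operators over `K` which commute with all `T γ` -/
noncomputable def cenK {Γ F V : Type} [Group Γ] [Field F] [AddCommGroup V] [Module F V]
    (K : Type) [Field K] [Algebra F K] (T : Γ →* Module.End F V) :
    Subalgebra K (Module.End K (K ⊗[F] V)) :=
  Subalgebra.centralizer K (Set.range fun γ => (T γ).baseChange K)

end Pool.Agent.Lib.MP_640417_ag.Lef
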