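import Pool.Agent.Lib.MP_640417_ag.Lef.Ext
import Pool.Agent.Lib.MP_640417_ag.Four.Darboux

/-!
# MP_640417_ag, Lef, module FftK (300 lines): the first fundamental theorem over `K`

`f = ∑ j ∈ univ.filter (r j = j), ε j`, `W = LinearMap.range f`, `g : (Fin n → V) → (Fin (n * N) → W)`,
`(g y) (i, j) = v j (y i)`, `g' : (Fin (n * N) → W) → (Fin n → V)`, `(g' w) i = ∑ j, u j (w (i, j))`.
The extensions of the symplectic squares of an adapted symplectic basis of `W` kill `x`, so
`map g x` is in the divisor algebra of `W` and `x = map g' (map g x)` in that of `V`.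
-/

set_option autoImplicit false

namespace Pool.Agent.Lib.MP_640417_ag.Lef

open Module Pool.Agent.Lib.MP_640417_ag Pool.Agent.Lib.MP_640417_ag.Frob
  Pool.Agent.Lib.MP_640417_ag.Four

section functoriality

variable {Γ : Type} [Group Γ] [TopologicalSpace Γ] {F : Type} [Field F]

private theorem FftK_mem {V W : Type} [AddCommGroup V] [Module F V] [AddCommGroup W]
    [Module F W] (g : V →ₗ[F] W) (m : ℕ) (x : ExteriorAlgebra F V) (hx : x ∈ ⋀[F]^m V) :
    ExteriorAlgebra.map g x ∈ ⋀[F]^m W := by
  have h : Submodule.map (ExteriorAlgebra.map g).toLinearMap (⋀[F]^m V) ≤ ⋀[F]^m W := by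
    rw [Submodule.map_pow]
    have h1 : Submodule.map (ExteriorAlgebra.map g).toLinearMap (LinearMap.range
        (ExteriorAlgebra.ι F : V →ₗ[F] ExteriorAlgebra F V)) ≤ LinearMap.range
        (ExteriorAlgebra.ι F : W →ₗ[F] ExteriorAlgebra F W) := by
      rintro _ ⟨_, ⟨v, rfl⟩, rfl⟩
      refine ⟨g v, ?_⟩
      simp
    exact pow_le_pow_left' h1 m
  exact h ⟨x, hx, rfl⟩

private theorem FftK_tate {V W : Type} [AddCommGroup V] [Module F V] [AddCommGroup W]
    [Module F W] (T : Γ → V →ₗ[F] V) (S : Γ → W →ₗ[F] W) (χ : Γ →* Fˣ) (g : V →ₗ[F] W)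
    (hg : ∀ γ, g ∘ₗ T γ = S γ ∘ₗ g) (i : ℕ) (x : ExteriorAlgebra F V) (hx : TateClass T χ i x) :
    TateClass S χ i (ExteriorAlgebra.map g x) := by
  obtain ⟨h1, U, hU⟩ := hx
  refine ⟨FftK_mem g _ x h1, U, fun γ hγ => ?_⟩
  have h2 := congrArg (ExteriorAlgebra.map g) (hU γ hγ)
  have h3 : ExteriorAlgebra.map (S γ) (ExteriorAlgebra.map g x) =
      ExteriorAlgebra.map g (ExteriorAlgebra.map (T γ) x) := by
    have e1 : (ExteriorAlgebra.map (S γ)).comp (ExteriorAlgebra.map g) =
        (ExteriorAlgebra.map g).comp (ExteriorAlgebra.map (T γ)) := by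
      rw [ExteriorAlgebra.map_comp_map, ExteriorAlgebra.map_comp_map, hg]
    exact congrArg (fun a => a x) e1
  rw [h3, ← map_smul]
  exact h2

private theorem FftK_div {V W : Type} [AddCommGroup V] [Module F V] [AddCommGroup W]
    [Module F W] (T : Γ → V →ₗ[F] V) (S : Γ → W →ₗ[F] W) (χ : Γ →* Fˣ) (g : V →ₗ[F] W)
    (hg : ∀ γ, g ∘ₗ T γ = S γ ∘ₗ g) (x : ExteriorAlgebra F V) (hx : x ∈ divisorAlg T χ) :
    ExteriorAlgebra.map g x ∈ divisorAlg S χ := by
  have h : (divisorAlg T χ).map (ExteriorAlgebra.map g) ≤ divisorAlg S χ := by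
    unfold divisorAlg
    rw [AlgHom.map_adjoin]
    refine Algebra.adjoin_mono ?_
    rintro _ ⟨y, hy, rfl⟩
    exact FftK_tate T S χ g hg 1 y hy
  exact h ⟨x, hx, rfl⟩

end functoriality

variable {K V : Type} [Field K] [CharZero K] [AddCommGroup V] [Module K V]
  [FiniteDimensional K V] {form : LinearMap.BilinForm K V}
  {C : Subalgebra K (Module.End K V)} {N : ℕ} {st : Fin N → Fin N} {ε : Fin N → Module.End K V}
  {r : Fin N → Fin N} {u v : Fin N → Module.End K V}

section idem

/-- The sum of the projections onto the representatives. -/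
private noncomputable def ff (r : Fin N → Fin N) (ε : Fin N → Module.End K V) :
    Module.End K V := ∑ j ∈ Finset.univ.filter (fun j => r j = j), ε j

omit [CharZero K] [FiniteDimensional K V] in
private theorem ff_eps (hS : Sys form C N st ε) (k : Fin N) :
    ff r ε * ε k = if r k = k then ε k else 0 := by
  unfold ff
  rw [Finset.sum_mul]
  by_cases hk : r k = k
  · rw [if_pos hk, Finset.sum_eq_single k]
    · exact hS.idem k
    · intro j _ hj
      exact hS.orth j k hj
    · intro h
      exact (h (Finset.mem_filter.2 ⟨Finset.mem_univ _, hk⟩)).elim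
  · rw [if_neg hk]
    refine Finset.sum_eq_zero fun j hj => hS.orth j k ?_
    rintro rfl
    exact hk (Finset.mem_filter.1 hj).2

omit [CharZero K] [FiniteDimensional K V] in
private theorem eps_ff (hS : Sys form C N st ε) (k : Fin N) :
    ε k * ff r ε = if r k = k then ε k else 0 := by
  unfold ff
  rw [Finset.mul_sum]
  by_cases hk : r k = k
  · rw [if_pos hk, Finset.sum_eq_single k]
    · exact hS.idem k
    · intro j _ hj
      exact hS.orth k j (Ne.symm hj)
    · intro h
      exact (h (Finset.mem_filter.2 ⟨Finset.mem_univ _, hk⟩)).elim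
  · rw [if_neg hk]
    refine Finset.sum_eq_zero fun j hj => hS.orth k j ?_
    rintro rfl
    exact hk (Finset.mem_filter.1 hj).2

omit [CharZero K] [FiniteDimensional K V] in
private theorem ff_ff (hS : Sys form C N st ε) : ff r ε * ff r ε = ff r ε := by
  have h : ff r ε * ff r ε = ∑ j ∈ Finset.univ.filter (fun j => r j = j), ff r ε * ε j := by
    conv_lhs =>
      rhs
      unfold ff
    rw [Finset.mul_sum]
  rw [h]
  unfold ff
  refine Finset.sum_congr rfl fun j hj => ?_
  have h1 := ff_eps (r := r) hS j
  unfold ff at h1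
  rw [h1, if_pos (Finset.mem_filter.1 hj).2]

omit [CharZero K] [FiniteDimensional K V] in
private theorem ff_adj (hS : Sys form C N st ε) (h : UV form C N st ε r u v) (x y : V) :
    form (ff r ε x) y = form x (ff r ε y) := by
  have e1 : form (ff r ε x) y = ∑ j, if r j = j then form (ε j x) y else 0 := by
    unfold ff
    rw [LinearMap.sum_apply, map_sum, LinearMap.sum_apply, Finset.sum_filter]
  have e2 : form x (ff r ε y) = ∑ j, if r j = j then form x (ε j y) else 0 := by
    unfold ff
    rw [LinearMap.sum_apply, map_sum, Finset.sum_filter]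
  have e3 : (∑ j, if r j = j then form x (ε j y) else 0) =
      ∑ j, if r (st j) = st j then form x (ε (st j) y) else 0 :=
    (Equiv.sum_comp (Function.Involutive.toPerm st hS.inv)
      (fun j => if r j = j then form x (ε j y) else 0)).symm
  rw [e1, e2, e3]
  refine Finset.sum_congr rfl fun j _ => ?_
  have e4 : r (st j) = st j ↔ r j = j := by
    rw [h.rst]
    constructor
    · intro h1
      rw [← hS.inv (r j), h1, hS.inv]
    · intro h1
      rw [h1]
  rw [hS.adj]
  by_cases h1 : r j = j
  · rw [if_pos h1, if_pos (e4.2 h1)]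
  · rw [if_neg h1, if_neg fun h2 => h1 (e4.1 h2)]

omit [CharZero K] [FiniteDimensional K V] in
private theorem ff_v (hS : Sys form C N st ε) (h : UV form C N st ε r u v) (j : Fin N) :
    ff r ε * v j = v j := by
  rw [← h.ev j, ← mul_assoc, ff_eps hS, if_pos (h.rr j)]

omit [CharZero K] [FiniteDimensional K V] in
private theorem u_ff (hS : Sys form C N st ε) (h : UV form C N st ε r u v) (j : Fin N) :
    u j * ff r ε = u j := by
  rw [← h.ue j, mul_assoc, eps_ff hS, if_pos (h.rr j)]

end idem

theorem fft_K {Γ : Type} [Group Γ] [TopologicalSpace Γ] (T : Γ →* Module.End K V) (χ : Γ →* Kˣ)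
    (halt : ∀ x, form x x = 0) (hnd : ∀ x, (∀ y, form x y = 0) → x = 0)
    (heq : ∀ γ x y, form (T γ x) (T γ y) = ((χ γ)⁻¹ : Kˣ).val * form x y)
    (hC : ∀ c ∈ C, ∀ γ, c * T γ = T γ * c)
    (hS : Sys form C N st ε) (h : UV form C N st ε r u v)
    (n m : ℕ) (x : ExteriorAlgebra K (Fin n → V)) (hx : x ∈ ⋀[K]^m (Fin n → V))
    (hk : ∀ X : Module.End K V, Skew form X → (∀ c ∈ C, X * c = c * X) → Dv n X x = 0) :
    x ∈ divisorAlg (fun γ => (T γ).compLeft (Fin n)) χ := by
  classical
  obtain ⟨f, hf⟩ : ∃ f : Module.End K V, f = ff r ε := ⟨_, rfl⟩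
  have fe : ∀ k, f * ε k = if r k = k then ε k else 0 := fun k => by rw [hf]; exact ff_eps hS k
  have fidem : f * f = f := by rw [hf]; exact ff_ff hS
  have fadj : ∀ x y, form (f x) y = form x (f y) := fun x y => by rw [hf]; exact ff_adj hS h x y
  have fv : ∀ j, f * v j = v j := fun j => by rw [hf]; exact ff_v hS h j
  have uf : ∀ j, u j * f = u j := fun j => by rw [hf]; exact u_ff hS h j
  have fT : ∀ γ, f * T γ = T γ * f := by
    intro γ
    rw [hf]
    unfold ff
    rw [Finset.sum_mul, Finset.mul_sum]
    exact Finset.sum_congr rfl fun j _ => hC _ (hS.mem j) γ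
  clear hf
  -- the space `W`
  let W : Submodule K V := LinearMap.range f
  let π : V →ₗ[K] W := f.rangeRestrict
  have hπ : ∀ y, ((π y : W) : V) = f y := fun _ => rfl
  have hfix : ∀ y : W, f (y : V) = y := by
    rintro ⟨_, y, rfl⟩
    exact LinearMap.congr_fun fidem y
  have hπι : ∀ y : W, π (y : V) = y := fun y => Subtype.ext (by rw [hπ, hfix])
  let formW : LinearMap.BilinForm K W := form.domRestrict₁₂ W W
  have hformW : ∀ a b : W, formW a b = form (a : V) (b : V) := fun _ _ => rfl
  let TW : Γ →* Module.End K W :=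
    { toFun := fun γ => π ∘ₗ T γ ∘ₗ W.subtype
      map_one' := by
        refine LinearMap.ext fun y => Subtype.ext ?_
        change f (T 1 (y : V)) = (y : V)
        rw [map_one, Module.End.one_apply, hfix]
      map_mul' := by
        intro γ δ
        refine LinearMap.ext fun y => Subtype.ext ?_
        change f (T (γ * δ) (y : V)) = f (T γ (f (T δ (y : V))))
        have e1 : f (T δ (y : V)) = T δ (y : V) := by
          have e2 := LinearMap.congr_fun (fT δ) (y : V)
          rw [Module.End.mul_apply, Module.End.mul_apply, hfix] at e2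
          exact e2
        rw [e1, map_mul, Module.End.mul_apply] }
  have hTW : ∀ γ (y : W), ((TW γ y : W) : V) = T γ (y : V) := by
    intro γ y
    change f (T γ (y : V)) = T γ (y : V)
    have e2 := LinearMap.congr_fun (fT γ) (y : V)
    rw [Module.End.mul_apply, Module.End.mul_apply, hfix] at e2
    exact e2
  let pW : Fin N → Module.End K W := fun b => π ∘ₗ ε b ∘ₗ W.subtype
  have hpW : ∀ b (y : W), ((pW b y : W) : V) = if r b = b then ε b (y : V) else 0 := by
    intro b y
    change f (ε b (y : V)) = _
    have e2 := LinearMap.congr_fun (fe b) (y : V)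
    rw [Module.End.mul_apply] at e2
    rw [e2]
    by_cases hb : r b = b
    · rw [if_pos hb, if_pos hb]
    · rw [if_neg hb, if_neg hb, LinearMap.zero_apply]
  have rst' : ∀ b, r (st b) = st b ↔ r b = b := by
    intro b
    rw [h.rst]
    constructor
    · intro h1
      rw [← hS.inv (r b), h1, hS.inv]
    · intro h1
      rw [h1]
  have haltW : ∀ y, formW y y = 0 := fun y => halt _
  have hndW : ∀ y, (∀ z, formW y z = 0) → y = 0 := by
    intro y hy
    apply Subtype.ext
    apply hnd
    intro z
    have e1 := hy (π z)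
    rw [hformW, hπ, ← fadj, hfix] at e1
    exact e1
  have hsumW : ∑ b, pW b = 1 := by
    refine LinearMap.ext fun y => Subtype.ext ?_
    have e1 : ((∑ b, pW b) y : W) = π ((∑ b, ε b) (y : V)) := by
      rw [LinearMap.sum_apply, LinearMap.sum_apply, map_sum]
      rfl
    rw [e1, hS.sum, Module.End.one_apply, hπι]
    rfl
  have hidW : ∀ b, pW b * pW b = pW b := by
    intro b
    refine LinearMap.ext fun y => Subtype.ext ?_
    rw [Module.End.mul_apply, hpW, hpW]
    by_cases hb : r b = b
    · rw [if_pos hb, if_pos hb]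
      exact LinearMap.congr_fun (hS.idem b) _
    · rw [if_neg hb, if_neg hb]
  have horthW : ∀ b b', b ≠ b' → pW b * pW b' = 0 := by
    intro b b' hbb
    refine LinearMap.ext fun y => Subtype.ext ?_
    rw [Module.End.mul_apply, hpW, hpW]
    by_cases hb : r b = b
    · rw [if_pos hb]
      by_cases hb' : r b' = b'
      · rw [if_pos hb']
        exact LinearMap.congr_fun (hS.orth b b' hbb) _
      · rw [if_neg hb', map_zero]
        rfl
    · rw [if_neg hb]
      rfl
  have hadjW : ∀ b y z, formW (pW b y) z = formW y (pW (st b) z) := by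
    intro b y z
    rw [hformW, hformW, hpW, hpW]
    by_cases hb : r b = b
    · rw [if_pos hb, if_pos ((rst' b).2 hb), hS.adj]
    · rw [if_neg hb, if_neg fun h2 => hb ((rst' b).1 h2), map_zero, map_zero,
        LinearMap.zero_apply]
  obtain ⟨mm, e, w, blk, hb⟩ := exists_symBasis pDarboux haltW hndW st pW hS.inv hsumW hidW horthW
    hadjW
  -- the maps
  let g : (Fin n → V) →ₗ[K] (Fin (n * N) → W) :=
    LinearMap.pi fun p => (π ∘ₗ v (finProdFinEquiv.symm p).2) ∘ₗ
      (LinearMap.proj (finProdFinEquiv.symm p).1)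
  let g' : (Fin (n * N) → W) →ₗ[K] (Fin n → V) :=
    LinearMap.pi fun a => ∑ j, (u j ∘ₗ W.subtype) ∘ₗ (LinearMap.proj (finProdFinEquiv (a, j)))
  have hg : ∀ y p, g y p = π (v (finProdFinEquiv.symm p).2 (y (finProdFinEquiv.symm p).1)) :=
    fun _ _ => rfl
  have hg' : ∀ z a, g' z a = ∑ j, u j ((z (finProdFinEquiv (a, j)) : W) : V) := by
    intro z a
    change (∑ j, (u j ∘ₗ W.subtype) ∘ₗ (LinearMap.proj (finProdFinEquiv (a, j)))) z = _
    rw [LinearMap.sum_apply]
    rfl
  have hgg : g' ∘ₗ g = LinearMap.id := by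
    refine LinearMap.ext fun y => funext fun a => ?_
    rw [LinearMap.comp_apply, hg']
    have e1 : ∀ j, u j ((g y (finProdFinEquiv (a, j)) : W) : V) = ε j (y a) := by
      intro j
      rw [hg, Equiv.symm_apply_apply, hπ]
      have e2 : u j * f * v j = ε j := by rw [uf, h.uv]
      exact LinearMap.congr_fun e2 (y a)
    rw [Finset.sum_congr rfl fun j _ => e1 j, ← LinearMap.sum_apply, hS.sum]
    rfl
  have heqv' : ∀ γ, g' ∘ₗ (TW γ).compLeft (Fin (n * N)) = (T γ).compLeft (Fin n) ∘ₗ g' := by
    intro γ
    refine LinearMap.ext fun z => funext fun a => ?_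
    have e1 : ((T γ).compLeft (Fin n) ∘ₗ g') z a = T γ (g' z a) := rfl
    have e3 : ∀ p, (TW γ).compLeft (Fin (n * N)) z p = TW γ (z p) := fun _ => rfl
    rw [e1, LinearMap.comp_apply, hg', hg', map_sum]
    refine Finset.sum_congr rfl fun j _ => ?_
    rw [e3, hTW]
    exact LinearMap.congr_fun (hC _ (h.uC j) γ) _
  have hx' := FftK_mem g m x hx
  have hmem : ExteriorAlgebra.map g x ∈
      divisorAlg (fun γ => (TW γ).compLeft (Fin (n * N))) χ := by
    refine hb.mem_divisorAlg horthW TW χ ?_ ⊤ ?_ (n * N) m _ hx' ?_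
    · intro γ y z
      rw [hformW, hformW, hTW, hTW, heq]
    · intro b γ _
      refine LinearMap.ext fun y => Subtype.ext ?_
      rw [Module.End.mul_apply, Module.End.mul_apply, hpW, hTW, hTW, hpW]
      by_cases hbb : r b = b
      · rw [if_pos hbb, if_pos hbb]
        exact LinearMap.congr_fun (hC _ (hS.mem b) γ) _
      · rw [if_neg hbb, if_neg hbb, map_zero]
    · intro a b hab
      -- the two basis vectors
      have hpe : ∀ (k : Fin N) (s : Fin mm ⊕ Fin mm), r k = k →
          ε k ((e s : W) : V) = if blk s = k then ((e s : W) : V) else 0 := by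
        intro k s hk'
        have e1 : ((pW k (e s) : W) : V) = ε k ((e s : W) : V) := by rw [hpW, if_pos hk']
        rw [← e1]
        by_cases hs : blk s = k
        · rw [if_pos hs, ← hs, hb.pe]
        · rw [if_neg hs, ← hb.pe s, ← Module.End.mul_apply, horthW _ _ (Ne.symm hs)]
          rfl
      obtain ⟨b', hb'⟩ : ∃ b' : Fin mm ⊕ Fin mm, b' = Sum.swap b := ⟨_, rfl⟩
      rw [← hb']
      have hblk' : blk b' = st (blk a) := by rw [hb', hb.blkc, hab]
      let Y : Module.End K V := ss form ((e a : W) : V) ((e b' : W) : V)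
      have hYa : ∀ z, Y z = form z ((e a : W) : V) • ((e b' : W) : V) +
          form z ((e b' : W) : V) • ((e a : W) : V) := fun _ => rfl
      have hYW : ∀ z : W, ((ss formW (e a) (e b') z : W) : V) = Y (z : V) := fun _ => rfl
      have hYskew : Skew form Y := ss_skew halt _ _
      have hYcomm : ∀ j, Y * ε (r j) = ε (r j) * Y := by
        intro j
        obtain ⟨k, hk'⟩ : ∃ k, k = r j := ⟨_, rfl⟩
        have hrk : r k = k := by rw [hk', h.rr]
        have hrsk : r (st k) = st k := (rst' k).2 hrk
        rw [← hk']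
        refine LinearMap.ext fun z => ?_
        rw [Module.End.mul_apply, Module.End.mul_apply, hYa, hYa, hS.adj, hS.adj, hpe _ _ hrsk,
          hpe _ _ hrsk, map_add, map_smul, map_smul, hpe _ _ hrk, hpe _ _ hrk, hblk']
        have e1 : blk a = st k ↔ st (blk a) = k := by
          constructor
          · intro h1
            rw [h1, hS.inv]
          · intro h1
            rw [← h1, hS.inv]
        have e2 : st (blk a) = st k ↔ blk a = k := by
          constructor
          · intro h1
            rw [← hS.inv (blk a), h1, hS.inv]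
          · intro h1
            rw [h1]
        have key : ∀ (P Q R S : Prop) [Decidable P] [Decidable Q] [Decidable R] [Decidable S]
            (_ : P ↔ Q) (_ : R ↔ S) (ea eb : V),
            form z (if P then ea else 0) • eb + form z (if R then eb else 0) • ea =
              form z ea • (if Q then eb else 0) + form z eb • (if S then ea else 0) := by
          intro P Q R S _ _ _ _ hPQ hRS ea eb
          by_cases hP : P
          · have hQ : Q := hPQ.1 hP
            by_cases hR : R
            · have hS' : S := hRS.1 hR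
              rw [if_pos hP, if_pos hQ, if_pos hR, if_pos hS']
            · have hS' : ¬ S := fun h1 => hR (hRS.2 h1)
              rw [if_pos hP, if_pos hQ, if_neg hR, if_neg hS', map_zero, zero_smul, smul_zero]
          · have hQ : ¬ Q := fun h1 => hP (hPQ.2 h1)
            by_cases hR : R
            · have hS' : S := hRS.1 hR
              rw [if_neg hP, if_neg hQ, if_pos hR, if_pos hS', map_zero, zero_smul, smul_zero]
            · have hS' : ¬ S := fun h1 => hR (hRS.2 h1)
              rw [if_neg hP, if_neg hQ, if_neg hR, if_neg hS', map_zero, zero_smul, smul_zero,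
                smul_zero, zero_smul]
        exact key _ _ _ _ e1 e2 _ _
      have hzero : Dv n (ext u v Y) x = 0 :=
        hk _ (ext_skew hS h hYskew) fun c hc => ext_comm hS h hYcomm hc
      have hcomp : ∀ y, g ((ext u v Y).compLeft (Fin n) y) =
          (ss formW (e a) (e b')).compLeft (Fin (n * N)) (g y) := by
        intro y
        funext p
        apply Subtype.ext
        have e1 : (ext u v Y).compLeft (Fin n) y (finProdFinEquiv.symm p).1 =
            ext u v Y (y (finProdFinEquiv.symm p).1) := rfl
        have e2 : (ss formW (e a) (e b')).compLeft (Fin (n * N)) (g y) p =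
            ss formW (e a) (e b') (g y p) := rfl
        rw [hg, e1, hπ, e2, hYW, hg, hπ]
        have e3 := LinearMap.congr_fun (v_ext hS h hYcomm (finProdFinEquiv.symm p).2)
          (y (finProdFinEquiv.symm p).1)
        rw [Module.End.mul_apply, Module.End.mul_apply] at e3
        have e4 := LinearMap.congr_fun (fv (finProdFinEquiv.symm p).2)
          (y (finProdFinEquiv.symm p).1)
        rw [Module.End.mul_apply] at e4
        have e5 : ∀ z, f (Y z) = Y z := by
          intro z
          rw [hYa, map_add, map_smul, map_smul, hfix, hfix]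
        rw [e3, e5, e4]
      have hfin := (isDer_Dv n (ext u v Y)).map
        (isDer_Dv (n * N) (ss formW (e a) (e b'))) g hcomp x
      rw [hzero, map_zero] at hfin
      exact hfin.symm
  have hz := FftK_div (fun γ => (TW γ).compLeft (Fin (n * N)))
    (fun γ => (T γ).compLeft (Fin n)) χ g' heqv' _ hmem
  have h3 : ExteriorAlgebra.map g' (ExteriorAlgebra.map g x) = x := by
    have e1 : (ExteriorAlgebra.map g').comp (ExteriorAlgebra.map g) = AlgHom.id K _ := by
      rw [ExteriorAlgebra.map_comp_map, hgg, ExteriorAlgebra.map_id]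
    exact congrArg (fun a => a x) e1
  rwa [h3] at hz

end Pool.Agent.Lib.MP_640417_ag.Lef
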